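import Pool.Agent.W889.VC.Coh2

/-!
Incidence graphs of grids are split interval graphs and convex bipartite graphs.
-/

set_option autoImplicit false

namespace Pool.Agent.Run7.h653.FH

open Pool.Agent.W889.VC
open Pool.Agent.W889.VC.Grid

/-- interval graphs -/
def IGr (y : BinStr) : Prop :=
  ∃ I : ℕ → Set ℚ, (∀ u, (I u).Nonempty ∧ (I u).OrdConnected) ∧
    ∀ u v, y u v = true ↔ (u ≠ v ∧ (I u ∩ I v).Nonempty)

/-- split interval graphs -/
def SIGr (y : BinStr) : Prop :=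
  IGr y ∧ ∃ A : Set ℕ, (∀ u ∈ A, ∀ v ∈ A, u ≠ v → y u v = true) ∧
    ∀ u, u ∉ A → ∀ v, v ∉ A → y u v = false

/-- convex bipartite graphs -/
def CBGr (y : BinStr) : Prop :=
  (∀ u v, y u v = true → y v u = true) ∧
  ∃ (A : Set ℕ) (l : ℕ → ℚ), (∀ u v, y u v = true → (u ∈ A ↔ v ∉ A)) ∧
    (∀ u, u ∉ A → ∀ v, v ∉ A → l u = l v → u = v) ∧
    ∀ a ∈ A, ∀ u, u ∉ A → ∀ v, v ∉ A → ∀ w, w ∉ A →
      l u < l v → l v < l w → y a u = true → y a w = true → y a v = true

/-- the positions of rows and columns -/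
theorem exists_pos2 {γ : Grid ℕ} (hb : Base γ) : ∃ pos : ℕ → ℚ,
    (∀ u v, γ.R u → γ.R v → (γ.lt u v ↔ pos u < pos v)) ∧
    (∀ u v, γ.C u → γ.C v → (γ.lt u v ↔ pos u < pos v)) ∧
    (∀ u v, γ.R u → γ.C v → pos u < pos v) ∧
    (∀ u v, ¬ γ.P u → ¬ γ.P v → pos u = pos v → u = v) := by
  obtain ⟨pos, hpos⟩ := exists_pos hb
  have mR : ∀ u v, γ.R u → γ.R v → (γ.lt u v ↔ pos u < pos v) := by
    intro u v hu hv
    rw [← hpos u v (Or.inl hu) (Or.inl hv)]
    have := hb.disj u hu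
    have := hb.disj v hv
    simp [before, *]
  have mC : ∀ u v, γ.C u → γ.C v → (γ.lt u v ↔ pos u < pos v) := by
    intro u v hu hv
    rw [← hpos u v (Or.inr hu) (Or.inr hv)]
    have e1 : ¬ γ.R u := fun h => hb.disj u h hu
    have e2 : ¬ γ.R v := fun h => hb.disj v h hv
    simp [before, *]
  have mRC : ∀ u v, γ.R u → γ.C v → pos u < pos v := fun u v hu hv =>
    (hpos u v (Or.inl hu) (Or.inr hv)).1 (Or.inr (Or.inr ⟨hu, hv⟩))
  refine ⟨pos, mR, mC, mRC, fun u v hu hv h => ?_⟩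
  by_contra hne
  have hu' := cases3' γ u hu
  have hv' := cases3' γ v hv
  rcases before_total hb hu' hv' hne with h' | h'
  · exact absurd ((hpos u v hu' hv').1 h') (by rw [h]; exact lt_irrefl _)
  · exact absurd ((hpos v u hv' hu').1 h') (by rw [h]; exact lt_irrefl _)

theorem si_of_jrep {γ : Grid ℕ} (hb : Base γ) {y : BinStr}
    (h : JRep True γ (fun u v => y u v = true)) : SIGr y := by
  classical
  obtain ⟨pos, mR, mC, mRC, inj⟩ := exists_pos2 hb
  have hex : ∀ p, ∃ r c, γ.P p → γ.R r ∧ γ.iR p r ∧ γ.C c ∧ γ.iC p c := by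
    intro p
    by_cases hp : γ.P p
    · obtain ⟨r, h1, h2, -⟩ := hb.rR p hp
      obtain ⟨c, h3, h4, -⟩ := hb.rC p hp
      exact ⟨r, c, fun _ => ⟨h1, h2, h3, h4⟩⟩
    · exact ⟨0, 0, fun h => absurd h hp⟩
  choose r c hrc using hex
  have nR : ∀ {u}, γ.R u → ¬ γ.P u := fun h h' => h'.1 h
  have nC : ∀ {u}, γ.C u → ¬ γ.P u := fun h h' => h'.2 h
  let I : ℕ → Set ℚ := fun u => if γ.P u then {x | pos (r u) ≤ x ∧ x < pos (c u)} else {pos u}
  have hIP : ∀ {u}, γ.P u → I u = {x | pos (r u) ≤ x ∧ x < pos (c u)} := fun h => if_pos h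
  have hIM : ∀ {u}, ¬ γ.P u → I u = {pos u} := fun h => if_neg h
  -- markers and points
  have mp : ∀ u p, ¬ γ.P u → γ.P p → (y u p = true ↔ (pos (r p) ≤ pos u ∧ pos u < pos (c p))) := by
    intro u p hu hp
    obtain ⟨k1, k2, k3, k4⟩ := hrc p hp
    rcases cases3' γ u hu with hu' | hu'
    · have e := h.rp u p (r p) hu' hp k1 k2
      rw [e]
      constructor
      · rintro (rfl | h1)
        · exact ⟨le_refl _, mRC _ _ hu' k3⟩
        · exact ⟨((mR _ _ k1 hu').1 h1).le, mRC _ _ hu' k3⟩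
      · rintro ⟨h1, -⟩
        rcases h1.lt_or_eq with h2 | h2
        · exact Or.inr ((mR _ _ k1 hu').2 h2)
        · exact Or.inl (inj _ _ (nR k1) hu h2)
    · have e := h.cp u p (c p) hu' hp k3 k4
      rw [e, mC _ _ hu' k3]
      exact ⟨fun h1 => ⟨(mRC _ _ k1 hu').le, h1⟩, fun h1 => h1.2⟩
  refine ⟨⟨I, fun u => ?_, fun u v => ?_⟩, {u | γ.P u}, fun u hu v hv hne =>
    (h.pp u v hu hv).2 ⟨trivial, hne⟩, fun u hu v hv => ?_⟩
  · by_cases hu : γ.P u
    · obtain ⟨k1, k2, k3, k4⟩ := hrc u hu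
      rw [hIP hu]
      refine ⟨⟨pos (r u), le_refl _, mRC _ _ k1 k3⟩, ⟨fun a ha b hb' x hx => ?_⟩⟩
      exact ⟨ha.1.trans hx.1, lt_of_le_of_lt hx.2 hb'.2⟩
    · rw [hIM hu]
      exact ⟨Set.singleton_nonempty _, Set.ordConnected_singleton⟩
  · by_cases hu : γ.P u <;> by_cases hv : γ.P v
    · rw [h.pp u v hu hv, hIP hu, hIP hv]
      obtain ⟨k1, k2, k3, k4⟩ := hrc u hu
      obtain ⟨l1, l2, l3, l4⟩ := hrc v hv
      have : ({x | pos (r u) ≤ x ∧ x < pos (c u)} ∩ {x | pos (r v) ≤ x ∧ x < pos (c v)}).Nonempty :=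
        ⟨max (pos (r u)) (pos (r v)), ⟨le_max_left _ _, max_lt (mRC _ _ k1 k3) (mRC _ _ l1 k3)⟩,
          le_max_right _ _, max_lt (mRC _ _ k1 l3) (mRC _ _ l1 l3)⟩
      exact ⟨fun h1 => ⟨h1.2, this⟩, fun h1 => ⟨trivial, h1.1⟩⟩
    · have hne : u ≠ v := fun e => hv (e ▸ hu)
      have e1 : y u v = true ↔ y v u = true := ⟨fun h' => h.symm _ _ h', fun h' => h.symm _ _ h'⟩
      rw [e1, mp v u hv hu, hIP hu, hIM hv]
      constructor
      · intro h1
        exact ⟨hne, pos v, h1, rfl⟩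
      · rintro ⟨-, x, h1, h2⟩
        rw [Set.mem_singleton_iff] at h2
        rw [← h2]
        exact h1
    · have hne : u ≠ v := fun e => hu (e ▸ hv)
      rw [mp u v hu hv, hIP hv, hIM hu]
      constructor
      · intro h1
        exact ⟨hne, pos u, rfl, h1⟩
      · rintro ⟨-, x, h2, h1⟩
        rw [Set.mem_singleton_iff] at h2
        rw [← h2]
        exact h1
    · rw [hIM hu, hIM hv]
      refine iff_of_false (h.mm u v hu hv) ?_
      rintro ⟨hne, x, h1, h2⟩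
      rw [Set.mem_singleton_iff] at h1 h2
      exact hne (inj u v hu hv (h1.symm.trans h2))
  · rw [Bool.eq_false_iff]
    exact h.mm u v hu hv

theorem cb_of_jrep {γ : Grid ℕ} (hb : Base γ) {y : BinStr}
    (h : JRep False γ (fun u v => y u v = true)) : CBGr y := by
  obtain ⟨pos, mR, mC, mRC, inj⟩ := exists_pos2 hb
  have nR : ∀ {u}, γ.R u → ¬ γ.P u := fun h h' => h'.1 h
  refine ⟨h.symm, {u | γ.P u}, pos, fun u v huv => ?_, fun u hu v hv => inj u v hu hv, ?_⟩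
  · constructor
    · intro hu hv
      exact ((h.pp u v hu hv).1 huv).1
    · intro hv
      by_contra hu
      exact h.mm u v hu hv huv
  · intro a ha u hu v hv w hw huv hvw h1 h2
    obtain ⟨r, k1, k2, -⟩ := hb.rR a ha
    obtain ⟨c, k3, k4, -⟩ := hb.rC a ha
    have mp : ∀ u, ¬ γ.P u → (y a u = true ↔ (pos r ≤ pos u ∧ pos u < pos c)) := by
      intro u hu
      have e1 : y a u = true ↔ y u a = true := ⟨fun h' => h.symm _ _ h', fun h' => h.symm _ _ h'⟩
      rcases cases3' γ u hu with hu' | hu'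
      · have e := h.rp u a r hu' ha k1 k2
        rw [e1, e]
        constructor
        · rintro (rfl | h1)
          · exact ⟨le_refl _, mRC _ _ hu' k3⟩
          · exact ⟨((mR _ _ k1 hu').1 h1).le, mRC _ _ hu' k3⟩
        · rintro ⟨h1, -⟩
          rcases h1.lt_or_eq with h2 | h2
          · exact Or.inr ((mR _ _ k1 hu').2 h2)
          · exact Or.inl (inj _ _ (nR k1) hu h2)
      · have e := h.cp u a c hu' ha k3 k4
        rw [e1, e, mC _ _ hu' k3]
        exact ⟨fun h1 => ⟨(mRC _ _ k1 hu').le, h1⟩, fun h1 => h1.2⟩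
    rw [mp u hu] at h1
    rw [mp w hw] at h2
    rw [mp v hv]
    exact ⟨h1.1.trans huv.le, hvw.trans h2.2⟩

theorem faithful_SI : Faithful BIso SIGr :=
  (target_J True SIGr (fun _ hb _ h => si_of_jrep hb h)).faithful

theorem faithful_CB : Faithful BIso CBGr :=
  (target_J False CBGr (fun _ hb _ h => cb_of_jrep hb h)).faithful

end Pool.Agent.Run7.h653.FH
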