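import Mathlib

/-!
Finite lemmas: graphs on at most four vertices, given by Boolean matrices.
-/

set_option autoImplicit false

namespace Pool.Agent.Run7.h653.FH

/-- the symmetric matrix with zero diagonal and the given entries -/
def mt (b01 b02 b03 b12 b13 b23 : Bool) (i j : Fin 4) : Bool :=
  if i = j then false
  else if (i = 0 ∧ j = 1) ∨ (i = 1 ∧ j = 0) then b01
  else if (i = 0 ∧ j = 2) ∨ (i = 2 ∧ j = 0) then b02
  else if (i = 0 ∧ j = 3) ∨ (i = 3 ∧ j = 0) then b03
  else if (i = 1 ∧ j = 2) ∨ (i = 2 ∧ j = 1) then b12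
  else if (i = 1 ∧ j = 3) ∨ (i = 3 ∧ j = 1) then b13
  else b23

theorem eq_mt {m : Fin 4 → Fin 4 → Bool} (h0 : ∀ i, m i i = false) (h1 : ∀ i j, m i j = m j i) :
    m = mt (m 0 1) (m 0 2) (m 0 3) (m 1 2) (m 1 3) (m 2 3) := by
  funext i j
  fin_cases i <;> fin_cases j <;> simp [mt, h0, h1 1 0, h1 2 0, h1 3 0, h1 2 1, h1 3 1, h1 3 2]

/-- the path on four vertices -/
def pa (i j : Fin 4) : Bool := decide (i.val + 1 = j.val ∨ j.val + 1 = i.val)

/-- a nontrivial module -/
def ModM (m : Fin 4 → Fin 4 → Bool) (x : Fin 4 → Bool) : Prop :=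
  (∃ i j, i ≠ j ∧ x i = true ∧ x j = true) ∧ (∃ i, x i = false) ∧
    ∀ i j k, x i = true → x j = true → x k = false → m i k = m j k

instance (m : Fin 4 → Fin 4 → Bool) (x : Fin 4 → Bool) : Decidable (ModM m x) := by
  unfold ModM
  infer_instance

/-- the matrix is the path in some order -/
def PathM (m : Fin 4 → Fin 4 → Bool) (f : Fin 4 → Fin 4) : Prop :=
  ∀ i j, i < j → (f i ≠ f j ∧ m i j = pa (f i) (f j))

instance (m : Fin 4 → Fin 4 → Bool) (f : Fin 4 → Fin 4) : Decidable (PathM m f) := by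
  unfold PathM
  infer_instance

/-- four vertices without induced path have a nontrivial module -/
theorem mod4 : ∀ b01 b02 b03 b12 b13 b23 : Bool,
    (∃ x : Fin 4 → Bool, ModM (mt b01 b02 b03 b12 b13 b23) x) ∨
    (∃ f, PathM (mt b01 b02 b03 b12 b13 b23) f) := by
  decide +kernel

/-- no three vertices with equal entries `b` -/
def NoTri (m : Fin 4 → Fin 4 → Bool) (b : Bool) : Prop :=
  ∀ i j k : Fin 4, i < j → j < k → ¬ (m i j = b ∧ m j k = b ∧ m i k = b)

instance (m : Fin 4 → Fin 4 → Bool) (b : Bool) : Decidable (NoTri m b) := by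
  unfold NoTri
  infer_instance

/-- a partition into a clique and an independent set -/
def SplitM (m : Fin 4 → Fin 4 → Bool) (x : Fin 4 → Bool) : Prop :=
  ∀ i j, i < j → (x i = true → x j = true → m i j = true) ∧
    (x i = false → x j = false → m i j = false)

instance (m : Fin 4 → Fin 4 → Bool) (x : Fin 4 → Bool) : Decidable (SplitM m x) := by
  unfold SplitM
  infer_instance

/-- four vertices without triangle and without independent triple, which form a split graph, are a
path -/
theorem path4 : ∀ b01 b02 b03 b12 b13 b23 : Bool,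
    NoTri (mt b01 b02 b03 b12 b13 b23) true → NoTri (mt b01 b02 b03 b12 b13 b23) false →
    (∃ x : Fin 4 → Bool, SplitM (mt b01 b02 b03 b12 b13 b23) x) →
    ∃ f, PathM (mt b01 b02 b03 b12 b13 b23) f := by
  decide +kernel

/-- the same for three vertices -/
theorem path3 : ∀ b01 b02 b12 : Bool, ¬ (b01 = true ∧ b02 = true ∧ b12 = true) →
    ¬ (b01 = false ∧ b02 = false ∧ b12 = false) → ∃ a b c : Fin 4, a ≠ b ∧ a ≠ c ∧ b ≠ c ∧
      b01 = pa a b ∧ b02 = pa a c ∧ b12 = pa b c := by
  decide +kernel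

/-- the same for two vertices -/
theorem path2 : ∀ b01 : Bool, ∃ a b : Fin 4, a ≠ b ∧ b01 = pa a b := by
  decide +kernel

/-- three of five elements have the same colour -/
theorem five : ∀ x : Fin 5 → Bool, ∃ i j k : Fin 5, i < j ∧ j < k ∧ x i = x j ∧ x j = x k := by
  decide +kernel

theorem pa_symm (i j : Fin 4) : pa i j = pa j i := by
  unfold pa
  rw [decide_eq_decide]
  exact or_comm

theorem pa_irr (i : Fin 4) : pa i i = false := by
  unfold pa
  simp

theorem path_perm {m : Fin 4 → Fin 4 → Bool} (h0 : ∀ i, m i i = false)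
    (h1 : ∀ i j, m i j = m j i) {f : Fin 4 → Fin 4} (h : PathM m f) :
    ∃ g : Fin 4 → Fin 4, Function.Injective g ∧ ∀ k l, m (g k) (g l) = pa k l := by
  have inj : Function.Injective f := by
    intro i j hij
    rcases lt_trichotomy i j with h' | h' | h'
    · exact absurd hij (h i j h').1
    · exact h'
    · exact absurd hij.symm (h j i h').1
  let e : Fin 4 ≃ Fin 4 := Equiv.ofBijective f (Finite.injective_iff_bijective.1 inj)
  refine ⟨e.symm, e.symm.injective, fun k l => ?_⟩
  have hk : f (e.symm k) = k := e.apply_symm_apply k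
  have hl : f (e.symm l) = l := e.apply_symm_apply l
  rcases lt_trichotomy (e.symm k) (e.symm l) with h' | h' | h'
  · rw [(h _ _ h').2, hk, hl]
  · have : k = l := e.symm.injective h'
    subst this
    rw [h0, pa_irr]
  · rw [h1, (h _ _ h').2, hk, hl, pa_symm]

variable {V : Type} (H : SimpleGraph V)

/-- a map which is right on the pairs `i < j` is an embedding into the path -/
theorem emb_of {n : ℕ} (e : V ≃ Fin n) (f : Fin n → Fin 4)
    (hf : ∀ i j, i < j → (f i ≠ f j ∧ (H.Adj (e.symm i) (e.symm j) ↔ pa (f i) (f j) = true))) :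
    Nonempty (H ↪g SimpleGraph.pathGraph 4) := by
  have inj : Function.Injective f := by
    intro i j hij
    rcases lt_trichotomy i j with h | h | h
    · exact absurd hij (hf i j h).1
    · exact h
    · exact absurd hij.symm (hf j i h).1
  refine ⟨⟨⟨fun v => f (e v), fun u v huv => e.injective (inj huv)⟩, ?_⟩⟩
  intro u v
  show (SimpleGraph.pathGraph 4).Adj (f (e u)) (f (e v)) ↔ H.Adj u v
  rw [SimpleGraph.pathGraph_adj]
  have key : ∀ u v : V, e u < e v → (H.Adj u v ↔ pa (f (e u)) (f (e v)) = true) := by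
    intro u v h
    have := (hf _ _ h).2
    rwa [e.symm_apply_apply, e.symm_apply_apply] at this
  have pe : ∀ i j : Fin 4, (pa i j = true ↔ (i.val + 1 = j.val ∨ j.val + 1 = i.val)) := fun i j =>
    decide_eq_true_iff
  rcases lt_trichotomy (e u) (e v) with h | h | h
  · rw [key u v h, pe]
  · have : u = v := e.injective h
    subst this
    exact iff_of_false (by simp) (H.irrefl)
  · rw [H.adj_comm u v, key v u h, pe]
    exact or_comm

/-- A graph without triangle, without three independent vertices, which is a split graph, is an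
induced subgraph of the path on four vertices. -/
theorem emb_path (h1 : ∀ i j k, H.Adj i j → H.Adj j k → H.Adj i k → False)
    (h2 : ∀ i j k, i ≠ j → j ≠ k → i ≠ k → ¬ H.Adj i j → ¬ H.Adj j k → ¬ H.Adj i k → False)
    (A : V → Prop) (hA : ∀ i j, A i → A j → i ≠ j → H.Adj i j)
    (hA' : ∀ i j, ¬ A i → ¬ A j → ¬ H.Adj i j) : Nonempty (H ↪g SimpleGraph.pathGraph 4) := by
  classical
  -- at most four vertices
  have h5 : ∀ f : Fin 5 → V, ¬ Function.Injective f := by
    intro f hf
    obtain ⟨i, j, k, hij, hjk, e1, e2⟩ := five (fun i => decide (A (f i)))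
    have n1 : f i ≠ f j := fun h => hij.ne (hf h)
    have n2 : f j ≠ f k := fun h => hjk.ne (hf h)
    have n3 : f i ≠ f k := fun h => (hij.trans hjk).ne (hf h)
    rw [decide_eq_decide] at e1 e2
    by_cases ha : A (f i)
    · exact h1 _ _ _ (hA _ _ ha (e1.1 ha) n1) (hA _ _ (e1.1 ha) (e2.1 (e1.1 ha)) n2)
        (hA _ _ ha (e2.1 (e1.1 ha)) n3)
    · have hb : ¬ A (f j) := fun h => ha (e1.2 h)
      have hc : ¬ A (f k) := fun h => hb (e2.2 h)
      exact h2 _ _ _ n1 n2 n3 (hA' _ _ ha hb) (hA' _ _ hb hc) (hA' _ _ ha hc)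
  have hfin : Finite V := by
    by_contra hinf
    rw [not_finite_iff_infinite] at hinf
    exact h5 (fun i => Infinite.natEmbedding V i.val) fun i j hij =>
      Fin.ext ((Infinite.natEmbedding V).injective hij)
  obtain ⟨n, ⟨e⟩⟩ := Finite.exists_equiv_fin V
  have hn : n < 5 := by
    by_contra hn
    exact h5 (fun i => e.symm ⟨i.val, by omega⟩) fun i j hij => by
      have := e.symm.injective hij
      simp only [Fin.mk.injEq] at this
      exact Fin.ext this
  have dd : ∀ (p : Prop) [Decidable p] (b : Bool), decide p = b → (p ↔ b = true) := by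
    intro p _ b h
    rw [← h]
    simp
  have tri : ∀ i j k : Fin n, i < j → j < k →
      ¬ (decide (H.Adj (e.symm i) (e.symm j)) = true ∧ decide (H.Adj (e.symm j) (e.symm k)) = true ∧
        decide (H.Adj (e.symm i) (e.symm k)) = true) := by
    rintro i j k - - ⟨k1, k2, k3⟩
    exact h1 _ _ _ (of_decide_eq_true k1) (of_decide_eq_true k2) (of_decide_eq_true k3)
  have cot : ∀ i j k : Fin n, i < j → j < k →
      ¬ (decide (H.Adj (e.symm i) (e.symm j)) = false ∧
        decide (H.Adj (e.symm j) (e.symm k)) = false ∧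
        decide (H.Adj (e.symm i) (e.symm k)) = false) := by
    rintro i j k hij hjk ⟨k1, k2, k3⟩
    exact h2 _ _ _ (fun h => hij.ne (e.symm.injective h)) (fun h => hjk.ne (e.symm.injective h))
      (fun h => (hij.trans hjk).ne (e.symm.injective h)) (of_decide_eq_false k1)
      (of_decide_eq_false k2) (of_decide_eq_false k3)
  interval_cases n
  · exact emb_of H e (fun i => i.elim0) fun i => i.elim0
  · exact emb_of H e (fun _ => 0) fun i j hij => absurd hij (by omega)
  · obtain ⟨a, b, h3, h4⟩ := path2 (decide (H.Adj (e.symm 0) (e.symm 1)))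
    refine emb_of H e ![a, b] fun i j hij => ?_
    have hi : i = 0 ∧ j = 1 := by omega
    obtain ⟨rfl, rfl⟩ := hi
    exact ⟨h3, dd _ _ h4⟩
  · obtain ⟨a, b, c, h3, h4, h5, h6, h7, h8⟩ := path3 (decide (H.Adj (e.symm 0) (e.symm 1)))
      (decide (H.Adj (e.symm 0) (e.symm 2))) (decide (H.Adj (e.symm 1) (e.symm 2)))
      (fun h => tri 0 1 2 (by decide) (by decide) ⟨h.1, h.2.2, h.2.1⟩)
      (fun h => cot 0 1 2 (by decide) (by decide) ⟨h.1, h.2.2, h.2.1⟩)
    refine emb_of H e ![a, b, c] fun i j hij => ?_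
    have hi : (i = 0 ∧ j = 1) ∨ (i = 0 ∧ j = 2) ∨ (i = 1 ∧ j = 2) := by omega
    rcases hi with ⟨rfl, rfl⟩ | ⟨rfl, rfl⟩ | ⟨rfl, rfl⟩
    · exact ⟨h3, dd _ _ h6⟩
    · exact ⟨h4, dd _ _ h7⟩
    · exact ⟨h5, dd _ _ h8⟩
  · have hm := eq_mt (m := fun i j => decide (H.Adj (e.symm i) (e.symm j)))
      (fun i => decide_eq_false (H.irrefl)) (fun i j => by rw [decide_eq_decide, H.adj_comm])
    have h3 := path4 (decide (H.Adj (e.symm 0) (e.symm 1))) (decide (H.Adj (e.symm 0) (e.symm 2)))
      (decide (H.Adj (e.symm 0) (e.symm 3))) (decide (H.Adj (e.symm 1) (e.symm 2)))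
      (decide (H.Adj (e.symm 1) (e.symm 3))) (decide (H.Adj (e.symm 2) (e.symm 3)))
    rw [← hm] at h3
    obtain ⟨f, hf⟩ := h3 tri cot ⟨fun i => decide (A (e.symm i)), fun i j hij =>
      ⟨fun k1 k2 => decide_eq_true (hA _ _ (of_decide_eq_true k1) (of_decide_eq_true k2)
        (fun h => hij.ne (e.symm.injective h))), fun k1 k2 =>
        decide_eq_false (hA' _ _ (of_decide_eq_false k1) (of_decide_eq_false k2))⟩⟩
    exact emb_of H e f fun i j hij => ⟨(hf i j hij).1, dd _ _ (hf i j hij).2⟩

end Pool.Agent.Run7.h653.FH
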