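import Pool.Agent.W889.VC.Inc

/-!
Incidence graphs of grids: rows, columns and points form cliques or independent sets, and all rows are
adjacent to all columns or none. All sixteen kinds determine the grid.
-/

set_option autoImplicit false

namespace Pool.Agent.Run7.h653.FH

open Pool.Agent.W889.VC
open Pool.Agent.W889.VC.Grid

/-- The graph `z` represents the grid: rows are adjacent to the points of smaller or equal row, columns
to the points of greater column; rows are pairwise adjacent iff `bR`, columns iff `bC`, points iff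
`bP`; rows and columns are adjacent iff `bX`. -/
structure ARep (bR bC bX bP : Prop) (γ : Grid ℕ) (z : ℕ → ℕ → Prop) : Prop where
  symm : ∀ u v, z u v → z v u
  rp : ∀ u p r, γ.R u → γ.P p → γ.R r → γ.iR p r → (z u p ↔ (r = u ∨ γ.lt r u))
  cp : ∀ u p c, γ.C u → γ.P p → γ.C c → γ.iC p c → (z u p ↔ γ.lt u c)
  rr : ∀ u v, γ.R u → γ.R v → (z u v ↔ (bR ∧ u ≠ v))
  cc : ∀ u v, γ.C u → γ.C v → (z u v ↔ (bC ∧ u ≠ v))
  rc : ∀ u v, γ.R u → γ.C v → (z u v ↔ bX)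
  pp : ∀ u v, γ.P u → γ.P v → (z u v ↔ (bP ∧ u ≠ v))

/-- two vertices with incomparable neighbourhoods (apart from the two vertices themselves) -/
def NV (z : ℕ → ℕ → Prop) (p q : ℕ) : Prop :=
  (∃ w, w ≠ p ∧ w ≠ q ∧ z p w ∧ ¬ z q w) ∧ ∃ w, w ≠ p ∧ w ≠ q ∧ z q w ∧ ¬ z p w

theorem NV.symm {z : ℕ → ℕ → Prop} {p q : ℕ} (h : NV z p q) : NV z q p :=
  ⟨by obtain ⟨w, h1, h2, h3⟩ := h.2; exact ⟨w, h2, h1, h3⟩,
    by obtain ⟨w, h1, h2, h3⟩ := h.1; exact ⟨w, h2, h1, h3⟩⟩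

/-- a point -/
def PA (z : ℕ → ℕ → Prop) (u : ℕ) : Prop :=
  (∃ a b, a ≠ u ∧ b ≠ u ∧ ¬ NV z u a ∧ ¬ NV z u b ∧ NV z a b) ∧
  ∃ a b, NV z u a ∧ NV z u b ∧ NV z a b

/-- a column -/
def CA (z : ℕ → ℕ → Prop) (u : ℕ) : Prop :=
  ∀ p, PA z p → z u p → ∃ u', ¬ PA z u' ∧ z u' p ∧ (∀ q, PA z q → z u' q → z u q) ∧
    ∃ q, PA z q ∧ z u q ∧ ¬ z u' q

/-- the order of the rows and of the columns -/
def lA (z : ℕ → ℕ → Prop) (u v : ℕ) : Prop :=
  (¬ CA z u ∧ ∃ q, PA z q ∧ z v q ∧ ¬ z u q) ∨ (CA z u ∧ ∃ q, PA z q ∧ z u q ∧ ¬ z v q)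

/-- decoding -/
def mkA (z : ℕ → ℕ → Prop) : Grid ℕ where
  R := fun u => ¬ PA z u ∧ ¬ CA z u
  C := fun u => ¬ PA z u ∧ CA z u
  lt := lA z
  iR := fun p r => z r p ∧ ∀ r', (¬ PA z r' ∧ ¬ CA z r') → lA z r' r → ¬ z r' p
  iC := fun p c => ¬ z c p ∧ ∀ c', (¬ PA z c' ∧ CA z c') → lA z c' c → z c' p

section dec

variable {bR bC bX bP : Prop} {γ : Grid ℕ} {z : ℕ → ℕ → Prop}

/-- a greater row and a greater column: incomparable -/
theorem nv_pp (hz : ARep bR bC bX bP γ z) (hb : Base γ) {p q r c r' c' : ℕ} (hp : γ.P p)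
    (hq : γ.P q) (hr : γ.R r) (hc : γ.C c) (hr' : γ.R r') (hc' : γ.C c') (i1 : γ.iR p r)
    (i2 : γ.iC p c) (i3 : γ.iR q r') (i4 : γ.iC q c') (hlt : γ.lt r r') (hlt' : γ.lt c c') :
    NV z p q := by
  have d : ∀ {u v}, ¬ γ.P u → γ.P v → u ≠ v := fun h h' e => h (e ▸ h')
  have nR : ∀ {u}, γ.R u → ¬ γ.P u := fun h h' => h'.1 h
  have nC : ∀ {u}, γ.C u → ¬ γ.P u := fun h h' => h'.2 h
  refine ⟨⟨r, d (nR hr) hp, d (nR hr) hq,
    hz.symm _ _ ((hz.rp r p r hr hp hr i1).2 (Or.inl rfl)), fun h => ?_⟩,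
    ⟨c, d (nC hc) hp, d (nC hc) hq, ?_, fun h => ?_⟩⟩
  · rcases (hz.rp r q r' hr hq hr' i3).1 (hz.symm _ _ h) with rfl | h'
    · exact hb.dR.irrefl _ hr hlt
    · exact hb.dR.irrefl _ hr (hb.dR.trans _ _ _ hr hr' hr hlt h')
  · exact hz.symm _ _ ((hz.cp c q c' hc hq hc' i4).2 hlt')
  · exact hb.dC.irrefl _ hc ((hz.cp c p c hc hp hc i2).1 (hz.symm _ _ h))

/-- a greater row and a smaller column: comparable -/
theorem cv_pp (hz : ARep bR bC bX bP γ z) (hb : Base γ) {p q r c r' c' : ℕ} (hp : γ.P p)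
    (hq : γ.P q) (hr : γ.R r) (hc : γ.C c) (hr' : γ.R r') (hc' : γ.C c') (i1 : γ.iR p r)
    (i2 : γ.iC p c) (i3 : γ.iR q r') (i4 : γ.iC q c') (hlt : γ.lt r r') (hlt' : γ.lt c' c) :
    ¬ NV z p q := by
  rintro ⟨-, w, h1, h2, h3, h4⟩
  apply h4
  rcases cases3 γ w with hw | hw | hw
  · apply hz.symm
    rw [hz.rp w p r hw hp hr i1]
    have := (hz.rp w q r' hw hq hr' i3).1 (hz.symm _ _ h3)
    right
    rcases this with rfl | h
    · exact hlt
    · exact hb.dR.trans _ _ _ hr hr' hw hlt h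
  · apply hz.symm
    rw [hz.cp w p c hw hp hc i2]
    exact hb.dC.trans _ _ _ hw hc' hc ((hz.cp w q c' hw hq hc' i4).1 (hz.symm _ _ h3)) hlt'
  · rw [hz.pp q w hq hw] at h3
    rw [hz.pp p w hp hw]
    exact ⟨h3.1, h1.symm⟩

theorem cv_rr (hz : ARep bR bC bX bP γ z) (hb : Base γ) {u v : ℕ} (hu : γ.R u) (hv : γ.R v)
    (huv : γ.lt u v) : ¬ NV z u v := by
  rintro ⟨⟨w, h1, h2, h3, h4⟩, -⟩
  apply h4
  rcases cases3 γ w with hw | hw | hw
  · rw [hz.rr u w hu hw] at h3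
    rw [hz.rr v w hv hw]
    exact ⟨h3.1, h2.symm⟩
  · rw [hz.rc u w hu hw] at h3
    rw [hz.rc v w hv hw]
    exact h3
  · obtain ⟨r, k1, k2, -⟩ := hb.rR w hw
    rw [hz.rp v w r hv hw k1 k2]
    rw [hz.rp u w r hu hw k1 k2] at h3
    right
    rcases h3 with rfl | h3
    · exact huv
    · exact hb.dR.trans _ _ _ k1 hu hv h3 huv

theorem cv_cc (hz : ARep bR bC bX bP γ z) (hb : Base γ) {u v : ℕ} (hu : γ.C u) (hv : γ.C v)
    (huv : γ.lt u v) : ¬ NV z u v := by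
  rintro ⟨-, w, h1, h2, h3, h4⟩
  apply h4
  rcases cases3 γ w with hw | hw | hw
  · have h3' := hz.symm _ _ h3
    rw [hz.rc w v hw hv] at h3'
    apply hz.symm
    rw [hz.rc w u hw hu]
    exact h3'
  · rw [hz.cc v w hv hw] at h3
    rw [hz.cc u w hu hw]
    exact ⟨h3.1, h1.symm⟩
  · obtain ⟨c, k1, k2, -⟩ := hb.rC w hw
    rw [hz.cp u w c hu hw k1 k2]
    rw [hz.cp v w c hv hw k1 k2] at h3
    exact hb.dC.trans _ _ _ hu hv k1 huv h3

/-- neighbourhoods of two rows are comparable -/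
theorem cv_RR (hz : ARep bR bC bX bP γ z) (hb : Base γ) {u v : ℕ} (hu : γ.R u) (hv : γ.R v) :
    ¬ NV z u v := by
  by_cases hne : u = v
  · subst hne
    rintro ⟨⟨w, h1, h2, h3, h4⟩, -⟩
    exact h4 h3
  · rcases hb.dR.total u v hu hv hne with h | h
    · exact cv_rr hz hb hu hv h
    · exact fun h' => cv_rr hz hb hv hu h h'.symm

/-- neighbourhoods of two columns are comparable -/
theorem cv_CC (hz : ARep bR bC bX bP γ z) (hb : Base γ) {u v : ℕ} (hu : γ.C u) (hv : γ.C v) :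
    ¬ NV z u v := by
  by_cases hne : u = v
  · subst hne
    rintro ⟨⟨w, h1, h2, h3, h4⟩, -⟩
    exact h4 h3
  · rcases hb.dC.total u v hu hv hne with h | h
    · exact cv_cc hz hb hu hv h
    · exact fun h' => cv_cc hz hb hv hu h h'.symm

/-- neighbourhoods of a row and a column are incomparable -/
theorem nv_RC (hz : ARep bR bC bX bP γ z) (hb : Base γ)
    (hf : ∀ r c, γ.R r → γ.C c → ∃ p, γ.Fib r c p) {u v : ℕ} (hu : γ.R u) (hv : γ.C v) :
    NV z u v := by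
  have d : ∀ {u v}, ¬ γ.P u → γ.P v → v ≠ u := fun h h' e => h (e ▸ h')
  have nR : ∀ {u}, γ.R u → ¬ γ.P u := fun h h' => h'.1 h
  have nC : ∀ {u}, γ.C u → ¬ γ.P u := fun h h' => h'.2 h
  obtain ⟨p, p1, p2, p3⟩ := hf u v hu hv
  obtain ⟨r', k1, k2⟩ := hb.dR.above u hu
  obtain ⟨c', k3, k4⟩ := hb.dC.above v hv
  obtain ⟨q, q1, q2, q3⟩ := hf r' c' k1 k3
  refine ⟨⟨p, d (nR hu) p1, d (nC hv) p1, (hz.rp u p u hu p1 hu p2).2 (Or.inl rfl), fun h => ?_⟩,
    ⟨q, d (nR hu) q1, d (nC hv) q1, (hz.cp v q c' hv q1 k3 q3).2 k4, fun h => ?_⟩⟩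
  · exact hb.dC.irrefl _ hv ((hz.cp v p v hv p1 hv p3).1 h)
  · rcases (hz.rp u q r' hu q1 k1 q2).1 h with rfl | h'
    · exact hb.dR.irrefl _ hu k2
    · exact hb.dR.irrefl _ hu (hb.dR.trans _ _ _ hu k1 hu k2 h')

/-- rows and points -/
theorem rp_dich (hz : ARep bR bC bX bP γ z) (hb : Base γ)
    (hf : ∀ r c, γ.R r → γ.C c → ∃ p, γ.Fib r c p) {u : ℕ} (hu : γ.R u) :
    (∀ p, γ.P p → NV z u p) ∨ (∀ p, γ.P p → ¬ NV z u p) := by
  have d : ∀ {u v}, ¬ γ.P u → γ.P v → v ≠ u := fun h h' e => h (e ▸ h')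
  have nR : ∀ {u}, γ.R u → ¬ γ.P u := fun h h' => h'.1 h
  have nC : ∀ {u}, γ.C u → ¬ γ.P u := fun h h' => h'.2 h
  have dRC : ∀ {u v}, γ.R u → γ.C v → v ≠ u := fun {u v} h h' e => hb.disj u h (e ▸ h')
  by_cases s1 : bP ∧ ¬ bR ∧ ¬ bX
  · right
    rintro p hp ⟨⟨w, h1, h2, h3, h4⟩, -⟩
    rcases cases3 γ w with hw | hw | hw
    · exact s1.2.1 ((hz.rr u w hu hw).1 h3).1
    · exact s1.2.2 ((hz.rc u w hu hw).1 h3)
    · exact h4 ((hz.pp p w hp hw).2 ⟨s1.1, h2.symm⟩)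
  by_cases s2 : ¬ bP ∧ bR ∧ bX
  · right
    rintro p hp ⟨-, w, h1, h2, h3, h4⟩
    rcases cases3 γ w with hw | hw | hw
    · exact h4 ((hz.rr u w hu hw).2 ⟨s2.2.1, h1.symm⟩)
    · exact h4 ((hz.rc u w hu hw).2 s2.2.2)
    · exact s2.1 ((hz.pp p w hp hw).1 h3).1
  left
  intro p hp
  obtain ⟨r, k1, k2, -⟩ := hb.rR p hp
  obtain ⟨c, k3, k4, -⟩ := hb.rC p hp
  constructor
  · -- `z u w`, not `z p w`
    by_cases a1 : bP
    · by_cases a2 : bR
      · -- a row below `r` and below `u`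
        obtain ⟨w, l1, l2, l3⟩ : ∃ w, γ.R w ∧ γ.lt w r ∧ γ.lt w u := by
          by_cases he : r = u
          · subst he
            obtain ⟨w, e1, e2⟩ := hb.dR.below r k1
            exact ⟨w, e1, e2, e2⟩
          · rcases hb.dR.total r u k1 hu he with h | h
            · obtain ⟨w, e1, e2⟩ := hb.dR.below r k1
              exact ⟨w, e1, e2, hb.dR.trans _ _ _ e1 k1 hu e2 h⟩
            · obtain ⟨w, e1, e2⟩ := hb.dR.below u hu
              exact ⟨w, e1, hb.dR.trans _ _ _ e1 hu k1 e2 h, e2⟩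
        have hwu : w ≠ u := fun e => hb.dR.irrefl u hu (e ▸ l3)
        refine ⟨w, hwu, (d (nR l1) hp).symm, (hz.rr u w hu l1).2 ⟨a2, hwu.symm⟩, fun h => ?_⟩
        rcases (hz.rp w p r l1 hp k1 k2).1 (hz.symm _ _ h) with rfl | h'
        · exact hb.dR.irrefl _ l1 l2
        · exact hb.dR.irrefl _ k1 (hb.dR.trans _ _ _ k1 l1 k1 h' l2)
      · have a3 : bX := by
          by_contra a3
          exact s1 ⟨a1, a2, a3⟩
        obtain ⟨w, e1, e2⟩ := hb.dC.above c k3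
        refine ⟨w, dRC hu e1, (d (nC e1) hp).symm, (hz.rc u w hu e1).2 a3, fun h => ?_⟩
        exact hb.dC.irrefl _ k3 (hb.dC.trans _ _ _ k3 e1 k3 e2
          ((hz.cp w p c e1 hp k3 k4).1 (hz.symm _ _ h)))
    · -- a point different from `p` in the row `u`
      obtain ⟨c', e1, e2⟩ := hb.dC.above c k3
      obtain ⟨w, w1, w2, w3⟩ := hf u c' hu e1
      have hwp : w ≠ p := by
        rintro rfl
        obtain ⟨c0, -, -, h0⟩ := hb.rC w hp
        have : c = c' := (h0 c k3 k4).trans (h0 c' e1 w3).symm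
        exact hb.dC.irrefl c k3 (by rw [← this] at e2; exact e2)
      exact ⟨w, d (nR hu) w1, hwp, (hz.rp u w u hu w1 hu w2).2 (Or.inl rfl),
        fun h => a1 ((hz.pp p w hp w1).1 h).1⟩
  · -- `z p w`, not `z u w`
    by_cases a1 : bP
    · obtain ⟨r1, e1, e2⟩ := hb.dR.above u hu
      obtain ⟨c', e3, e4⟩ := hb.dC.above c k3
      obtain ⟨w, w1, w2, w3⟩ := hf r1 c' e1 e3
      have hwp : w ≠ p := by
        rintro rfl
        obtain ⟨c0, -, -, h0⟩ := hb.rC w hp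
        have : c = c' := (h0 c k3 k4).trans (h0 c' e3 w3).symm
        exact hb.dC.irrefl c k3 (by rw [← this] at e4; exact e4)
      refine ⟨w, d (nR hu) w1, hwp, (hz.pp p w hp w1).2 ⟨a1, hwp.symm⟩, fun h => ?_⟩
      rcases (hz.rp u w r1 hu w1 e1 w2).1 h with rfl | h'
      · exact hb.dR.irrefl _ hu e2
      · exact hb.dR.irrefl _ hu (hb.dR.trans _ _ _ hu e1 hu e2 h')
    · by_cases a2 : bR
      · have a3 : ¬ bX := fun a3 => s2 ⟨a1, a2, a3⟩
        obtain ⟨w, e1, e2⟩ := hb.dC.below c k3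
        exact ⟨w, dRC hu e1, (d (nC e1) hp).symm,
          hz.symm _ _ ((hz.cp w p c e1 hp k3 k4).2 e2), fun h => a3 ((hz.rc u w hu e1).1 h)⟩
      · -- a row above `r` and `u`
        obtain ⟨w, l1, l2, l3⟩ : ∃ w, γ.R w ∧ γ.lt r w ∧ γ.lt u w := by
          by_cases he : r = u
          · subst he
            obtain ⟨w, e1, e2⟩ := hb.dR.above r k1
            exact ⟨w, e1, e2, e2⟩
          · rcases hb.dR.total r u k1 hu he with h | h
            · obtain ⟨w, e1, e2⟩ := hb.dR.above u hu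
              exact ⟨w, e1, hb.dR.trans _ _ _ k1 hu e1 h e2, e2⟩
            · obtain ⟨w, e1, e2⟩ := hb.dR.above r k1
              exact ⟨w, e1, e2, hb.dR.trans _ _ _ hu k1 e1 h e2⟩
        have hwu : w ≠ u := fun e => hb.dR.irrefl u hu (e ▸ l3)
        exact ⟨w, hwu, (d (nR l1) hp).symm,
          hz.symm _ _ ((hz.rp w p r l1 hp k1 k2).2 (Or.inr l2)),
          fun h => a2 ((hz.rr u w hu l1).1 h).1⟩

/-- columns and points -/
theorem cp_dich (hz : ARep bR bC bX bP γ z) (hb : Base γ)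
    (hf : ∀ r c, γ.R r → γ.C c → ∃ p, γ.Fib r c p) {u : ℕ} (hu : γ.C u) :
    (∀ p, γ.P p → NV z u p) ∨ (∀ p, γ.P p → ¬ NV z u p) := by
  have d : ∀ {u v}, ¬ γ.P u → γ.P v → v ≠ u := fun h h' e => h (e ▸ h')
  have nR : ∀ {u}, γ.R u → ¬ γ.P u := fun h h' => h'.1 h
  have nC : ∀ {u}, γ.C u → ¬ γ.P u := fun h h' => h'.2 h
  have dRC : ∀ {u v}, γ.R u → γ.C v → u ≠ v := fun {u v} h h' e => hb.disj u h (e ▸ h')
  have cr : ∀ {w}, γ.R w → (z u w ↔ bX) := fun {w} hw =>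
    ⟨fun h => (hz.rc w u hw hu).1 (hz.symm _ _ h), fun h => hz.symm _ _ ((hz.rc w u hw hu).2 h)⟩
  by_cases s1 : bP ∧ ¬ bC ∧ ¬ bX
  · right
    rintro p hp ⟨⟨w, h1, h2, h3, h4⟩, -⟩
    rcases cases3 γ w with hw | hw | hw
    · exact s1.2.2 ((cr hw).1 h3)
    · exact s1.2.1 ((hz.cc u w hu hw).1 h3).1
    · exact h4 ((hz.pp p w hp hw).2 ⟨s1.1, h2.symm⟩)
  by_cases s2 : ¬ bP ∧ bC ∧ bX
  · right
    rintro p hp ⟨-, w, h1, h2, h3, h4⟩
    rcases cases3 γ w with hw | hw | hw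
    · exact h4 ((cr hw).2 s2.2.2)
    · exact h4 ((hz.cc u w hu hw).2 ⟨s2.2.1, h1.symm⟩)
    · exact s2.1 ((hz.pp p w hp hw).1 h3).1
  left
  intro p hp
  obtain ⟨r, k1, k2, -⟩ := hb.rR p hp
  obtain ⟨c, k3, k4, -⟩ := hb.rC p hp
  constructor
  · -- `z u w`, not `z p w`
    by_cases a1 : bP
    · by_cases a2 : bC
      · -- a column above `c` and above `u`
        obtain ⟨w, l1, l2, l3⟩ : ∃ w, γ.C w ∧ γ.lt c w ∧ γ.lt u w := by
          by_cases he : c = u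
          · subst he
            obtain ⟨w, e1, e2⟩ := hb.dC.above c k3
            exact ⟨w, e1, e2, e2⟩
          · rcases hb.dC.total c u k3 hu he with h | h
            · obtain ⟨w, e1, e2⟩ := hb.dC.above u hu
              exact ⟨w, e1, hb.dC.trans _ _ _ k3 hu e1 h e2, e2⟩
            · obtain ⟨w, e1, e2⟩ := hb.dC.above c k3
              exact ⟨w, e1, e2, hb.dC.trans _ _ _ hu k3 e1 h e2⟩
        have hwu : w ≠ u := fun e => hb.dC.irrefl u hu (e ▸ l3)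
        refine ⟨w, hwu, (d (nC l1) hp).symm, (hz.cc u w hu l1).2 ⟨a2, hwu.symm⟩, fun h => ?_⟩
        exact hb.dC.irrefl _ k3 (hb.dC.trans _ _ _ k3 l1 k3 l2
          ((hz.cp w p c l1 hp k3 k4).1 (hz.symm _ _ h)))
      · have a3 : bX := by
          by_contra a3
          exact s1 ⟨a1, a2, a3⟩
        obtain ⟨w, e1, e2⟩ := hb.dR.below r k1
        refine ⟨w, dRC e1 hu, (d (nR e1) hp).symm, (cr e1).2 a3, fun h => ?_⟩
        rcases (hz.rp w p r e1 hp k1 k2).1 (hz.symm _ _ h) with rfl | h'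
        · exact hb.dR.irrefl _ e1 e2
        · exact hb.dR.irrefl _ k1 (hb.dR.trans _ _ _ k1 e1 k1 h' e2)
    · -- a point different from `p` above the column `u`
      obtain ⟨c', e1, e2⟩ := hb.dC.above u hu
      obtain ⟨r', e3, e4⟩ := hb.dR.above r k1
      obtain ⟨w, w1, w2, w3⟩ := hf r' c' e3 e1
      have hwp : w ≠ p := by
        rintro rfl
        obtain ⟨r0, -, -, h0⟩ := hb.rR w hp
        have : r = r' := (h0 r k1 k2).trans (h0 r' e3 w2).symm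
        exact hb.dR.irrefl r k1 (by rw [← this] at e4; exact e4)
      exact ⟨w, d (nC hu) w1, hwp, (hz.cp u w c' hu w1 e1 w3).2 e2,
        fun h => a1 ((hz.pp p w hp w1).1 h).1⟩
  · -- `z p w`, not `z u w`
    by_cases a1 : bP
    · obtain ⟨r1, e1, e2⟩ := hb.dR.above r k1
      obtain ⟨w, w1, w2, w3⟩ := hf r1 u e1 hu
      have hwp : w ≠ p := by
        rintro rfl
        obtain ⟨r0, -, -, h0⟩ := hb.rR w hp
        have : r = r1 := (h0 r k1 k2).trans (h0 r1 e1 w2).symm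
        exact hb.dR.irrefl r k1 (by rw [← this] at e2; exact e2)
      refine ⟨w, d (nC hu) w1, hwp, (hz.pp p w hp w1).2 ⟨a1, hwp.symm⟩, fun h => ?_⟩
      exact hb.dC.irrefl _ hu ((hz.cp u w u hu w1 hu w3).1 h)
    · by_cases a2 : bC
      · have a3 : ¬ bX := fun a3 => s2 ⟨a1, a2, a3⟩
        obtain ⟨w, e1, e2⟩ := hb.dR.above r k1
        exact ⟨w, dRC e1 hu, (d (nR e1) hp).symm,
          hz.symm _ _ ((hz.rp w p r e1 hp k1 k2).2 (Or.inr e2)), fun h => a3 ((cr e1).1 h)⟩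
      · -- a column below `c` and `u`
        obtain ⟨w, l1, l2, l3⟩ : ∃ w, γ.C w ∧ γ.lt w c ∧ γ.lt w u := by
          by_cases he : c = u
          · subst he
            obtain ⟨w, e1, e2⟩ := hb.dC.below c k3
            exact ⟨w, e1, e2, e2⟩
          · rcases hb.dC.total c u k3 hu he with h | h
            · obtain ⟨w, e1, e2⟩ := hb.dC.below c k3
              exact ⟨w, e1, e2, hb.dC.trans _ _ _ e1 k3 hu e2 h⟩
            · obtain ⟨w, e1, e2⟩ := hb.dC.below u hu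
              exact ⟨w, e1, hb.dC.trans _ _ _ e1 hu k3 e2 h, e2⟩
        have hwu : w ≠ u := fun e => hb.dC.irrefl u hu (e ▸ l3)
        exact ⟨w, hwu, (d (nC l1) hp).symm, hz.symm _ _ ((hz.cp w p c l1 hp k3 k4).2 l2),
          fun h => a2 ((hz.cc u w hu l1).1 h).1⟩

/-- markers are not points -/
theorem not_PA (hz : ARep bR bC bX bP γ z) (hb : Base γ)
    (hf : ∀ r c, γ.R r → γ.C c → ∃ p, γ.Fib r c p) {u : ℕ} (hu : ¬ γ.P u) : ¬ PA z u := by
  rintro ⟨⟨a, b, -, -, n1, n2, n3⟩, ⟨a', b', m1, m2, m3⟩⟩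
  rcases cases3' γ u hu with hu | hu
  · rcases rp_dich hz hb hf hu with h | h
    · -- comparable elements are rows
      have key : ∀ a, ¬ NV z u a → γ.R a := by
        intro a ha
        rcases cases3 γ a with h' | h' | h'
        · exact h'
        · exact absurd (nv_RC hz hb hf hu h') ha
        · exact absurd (h a h') ha
      exact cv_RR hz hb (key a n1) (key b n2) n3
    · have key : ∀ a, NV z u a → γ.C a := by
        intro a ha
        rcases cases3 γ a with h' | h' | h'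
        · exact absurd ha (cv_RR hz hb hu h')
        · exact h'
        · exact absurd ha (h a h')
      exact cv_CC hz hb (key a' m1) (key b' m2) m3
  · rcases cp_dich hz hb hf hu with h | h
    · have key : ∀ a, ¬ NV z u a → γ.C a := by
        intro a ha
        rcases cases3 γ a with h' | h' | h'
        · exact absurd (nv_RC hz hb hf h' hu).symm ha
        · exact h'
        · exact absurd (h a h') ha
      exact cv_CC hz hb (key a n1) (key b n2) n3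
    · have key : ∀ a, NV z u a → γ.R a := by
        intro a ha
        rcases cases3 γ a with h' | h' | h'
        · exact h'
        · exact absurd ha (cv_CC hz hb hu h')
        · exact absurd ha (h a h')
      exact cv_RR hz hb (key a' m1) (key b' m2) m3

theorem arep_P (hb : Base γ) (hf : ∀ r c, γ.R r → γ.C c → ∃ p, γ.Fib r c p)
    (hz : ARep bR bC bX bP γ z) (u : ℕ) : γ.P u ↔ PA z u := by
  refine ⟨fun hu => ?_, fun hu => by_contra fun h => not_PA hz hb hf h hu⟩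
  obtain ⟨r, k1, k2, -⟩ := hb.rR u hu
  obtain ⟨c, k3, k4, -⟩ := hb.rC u hu
  obtain ⟨r1, e1, e2⟩ := hb.dR.above r k1
  obtain ⟨r2, e3, e4⟩ := hb.dR.above r1 e1
  have e5 := hb.dR.trans _ _ _ k1 e1 e3 e2 e4
  constructor
  · obtain ⟨c2, f1, f2⟩ := hb.dC.below c k3
    obtain ⟨c1, f3, f4⟩ := hb.dC.below c2 f1
    have f5 := hb.dC.trans _ _ _ f3 f1 k3 f4 f2
    obtain ⟨a, a1, a2, a3⟩ := hf r1 c1 e1 f3
    obtain ⟨b, b1, b2, b3⟩ := hf r2 c2 e3 f1
    have ne : ∀ p r', γ.P p → γ.R r' → γ.iR p r' → γ.lt r r' → p ≠ u := by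
      rintro p r' hp hr' hi hlt rfl
      obtain ⟨r0, -, -, h0⟩ := hb.rR p hp
      have : r = r' := (h0 r k1 k2).trans (h0 r' hr' hi).symm
      exact hb.dR.irrefl r k1 (by rw [← this] at hlt; exact hlt)
    exact ⟨a, b, ne a r1 a1 e1 a2 e2, ne b r2 b1 e3 b2 e5,
      cv_pp hz hb hu a1 k1 k3 e1 f3 k2 k4 a2 a3 e2 f5,
      cv_pp hz hb hu b1 k1 k3 e3 f1 k2 k4 b2 b3 e5 f2,
      nv_pp hz hb a1 b1 e1 f3 e3 f1 a2 a3 b2 b3 e4 f4⟩
  · obtain ⟨c1, f1, f2⟩ := hb.dC.above c k3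
    obtain ⟨c2, f3, f4⟩ := hb.dC.above c1 f1
    have f5 := hb.dC.trans _ _ _ k3 f1 f3 f2 f4
    obtain ⟨a, a1, a2, a3⟩ := hf r1 c1 e1 f1
    obtain ⟨b, b1, b2, b3⟩ := hf r2 c2 e3 f3
    exact ⟨a, b, nv_pp hz hb hu a1 k1 k3 e1 f1 k2 k4 a2 a3 e2 f2,
      nv_pp hz hb hu b1 k1 k3 e3 f3 k2 k4 b2 b3 e5 f5,
      nv_pp hz hb a1 b1 e1 f1 e3 f3 a2 a3 b2 b3 e4 f4⟩

theorem arep_C (hb : Base γ) (hr0 : ∃ r, γ.R r) (hc0 : ∃ c, γ.C c)
    (hf : ∀ r c, γ.R r → γ.C c → ∃ p, γ.Fib r c p) (hz : ARep bR bC bX bP γ z) :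
    (∀ u, γ.C u → CA z u) ∧ ∀ u, γ.R u → ¬ CA z u := by
  have hP := arep_P hb hf hz
  obtain ⟨r0, hr0⟩ := hr0
  obtain ⟨c0, hc0⟩ := hc0
  have nR : ∀ {u}, γ.R u → ¬ γ.P u := fun h h' => h'.1 h
  have nC : ∀ {u}, γ.C u → ¬ γ.P u := fun h h' => h'.2 h
  constructor
  · intro u hu p hp hup
    have hp' := (hP p).2 hp
    obtain ⟨c, h1, h2, -⟩ := hb.rC p hp'
    have h3 := (hz.cp u p c hu hp' h1 h2).1 hup
    obtain ⟨c', h4, h5, h6⟩ := hb.dC.dense u c hu h1 h3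
    obtain ⟨q, k1, k2, k3⟩ := hf r0 c' hr0 h4
    refine ⟨c', fun h => nC h4 ((hP c').2 h), (hz.cp c' p c h4 hp' h1 h2).2 h6, ?_,
      q, (hP q).1 k1, (hz.cp u q c' hu k1 h4 k3).2 h5, fun h => ?_⟩
    · intro q hq h7
      have hq' := (hP q).2 hq
      obtain ⟨d, k1, k2, -⟩ := hb.rC q hq'
      rw [hz.cp u q d hu hq' k1 k2]
      rw [hz.cp c' q d h4 hq' k1 k2] at h7
      exact hb.dC.trans _ _ _ hu h4 k1 h5 h7
    · exact hb.dC.irrefl _ h4 ((hz.cp c' q c' h4 k1 h4 k3).1 h)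
  · intro u hu h
    obtain ⟨p, h1, h2, h3⟩ := hf u c0 hu hc0
    obtain ⟨u', k1, k2, k3, q, k4, k5, k6⟩ :=
      h p ((hP p).1 h1) ((hz.rp u p u hu h1 hu h2).2 (Or.inl rfl))
    rcases cases3' γ u' (fun h => k1 ((hP u').1 h)) with h' | h'
    · rcases (hz.rp u' p u h' h1 hu h2).1 k2 with h4 | h4
      · subst h4
        exact k6 k5
      · obtain ⟨q', l1, l2, l3⟩ := hf u' c0 h' hc0
        have l4 := k3 q' ((hP q').1 l1) ((hz.rp u' q' u' h' l1 h' l2).2 (Or.inl rfl))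
        rcases (hz.rp u q' u' hu l1 h' l2).1 l4 with l5 | l5
        · subst l5
          exact hb.dR.irrefl _ hu h4
        · exact hb.dR.irrefl _ hu (hb.dR.trans _ _ _ hu h' hu h4 l5)
    · obtain ⟨r1, m1, m2⟩ := hb.dR.above u hu
      obtain ⟨c1, m3, m4⟩ := hb.dC.above u' h'
      obtain ⟨q', l1, l2, l3⟩ := hf r1 c1 m1 m3
      have l4 := k3 q' ((hP q').1 l1) ((hz.cp u' q' c1 h' l1 m3 l3).2 m4)
      rcases (hz.rp u q' r1 hu l1 m1 l2).1 l4 with l5 | l5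
      · subst l5
        exact hb.dR.irrefl _ hu m2
      · exact hb.dR.irrefl _ hu (hb.dR.trans _ _ _ hu m1 hu m2 l5)

theorem mkA_iso (hb : Base γ) (hr0 : ∃ r, γ.R r) (hc0 : ∃ c, γ.C c)
    (hf : ∀ r c, γ.R r → γ.C c → ∃ p, γ.Fib r c p) (hz : ARep bR bC bX bP γ z) :
    GIso (Equiv.refl ℕ) γ (mkA z) := by
  have hP := arep_P hb hf hz
  obtain ⟨hC, hR⟩ := arep_C hb hr0 hc0 hf hz
  obtain ⟨r0, hr0⟩ := hr0
  obtain ⟨c0, hc0⟩ := hc0
  have nR : ∀ {u}, γ.R u → ¬ γ.P u := fun h h' => h'.1 h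
  have nC : ∀ {u}, γ.C u → ¬ γ.P u := fun h h' => h'.2 h
  have eR : ∀ u, γ.R u ↔ (¬ PA z u ∧ ¬ CA z u) := by
    intro u
    refine ⟨fun h => ⟨fun h' => nR h ((hP u).2 h'), hR u h⟩, fun ⟨h1, h2⟩ => ?_⟩
    rcases cases3' γ u (fun h => h1 ((hP u).1 h)) with h | h
    · exact h
    · exact absurd (hC u h) h2
  have eC : ∀ u, γ.C u ↔ (¬ PA z u ∧ CA z u) := by
    intro u
    refine ⟨fun h => ⟨fun h' => nC h ((hP u).2 h'), hC u h⟩, fun ⟨h1, h2⟩ => ?_⟩
    rcases cases3' γ u (fun h => h1 ((hP u).1 h)) with h | h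
    · exact absurd h2 (hR u h)
    · exact h
  have lR : ∀ u v, γ.R u → γ.R v → (γ.lt u v ↔ lA z u v) := by
    intro u v hu hv
    constructor
    · intro h
      obtain ⟨q, k1, k2, k3⟩ := hf v c0 hv hc0
      refine Or.inl ⟨hR u hu, q, (hP q).1 k1, (hz.rp v q v hv k1 hv k2).2 (Or.inl rfl),
        fun h' => ?_⟩
      rcases (hz.rp u q v hu k1 hv k2).1 h' with h'' | h''
      · subst h''
        exact hb.dR.irrefl _ hu h
      · exact hb.dR.irrefl _ hu (hb.dR.trans _ _ _ hu hv hu h h'')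
    · rintro (⟨-, q, k1, k2, k3⟩ | ⟨k0, -⟩)
      · have k1' := (hP q).2 k1
        obtain ⟨r, h1, h2, -⟩ := hb.rR q k1'
        rw [hz.rp v q r hv k1' h1 h2] at k2
        rw [hz.rp u q r hu k1' h1 h2] at k3
        by_cases hne : u = v
        · subst hne
          exact absurd k2 k3
        · rcases hb.dR.total u v hu hv hne with h | h
          · exact h
          · exfalso
            apply k3
            right
            rcases k2 with rfl | k2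
            · exact h
            · exact hb.dR.trans _ _ _ h1 hv hu k2 h
      · exact absurd k0 (hR u hu)
  have lC : ∀ u v, γ.C u → γ.C v → (γ.lt u v ↔ lA z u v) := by
    intro u v hu hv
    constructor
    · intro h
      obtain ⟨q, k1, k2, k3⟩ := hf r0 v hr0 hv
      refine Or.inr ⟨hC u hu, q, (hP q).1 k1, (hz.cp u q v hu k1 hv k3).2 h, fun h' => ?_⟩
      exact hb.dC.irrefl _ hv ((hz.cp v q v hv k1 hv k3).1 h')
    · rintro (⟨k0, -⟩ | ⟨-, q, k1, k2, k3⟩)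
      · exact absurd (hC u hu) k0
      · have k1' := (hP q).2 k1
        obtain ⟨r, h1, h2, -⟩ := hb.rC q k1'
        rw [hz.cp u q r hu k1' h1 h2] at k2
        rw [hz.cp v q r hv k1' h1 h2] at k3
        by_cases hne : u = v
        · subst hne
          exact absurd k2 k3
        · rcases hb.dC.total u v hu hv hne with h | h
          · exact h
          · exact absurd (hb.dC.trans _ _ _ hv hu h1 h k2) k3
  refine ⟨eR, eC, lR, lC, ?_, ?_⟩
  · intro p r hp hr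
    obtain ⟨r1, h1, h2, h3⟩ := hb.rR p hp
    show γ.iR p r ↔ (z r p ∧ ∀ r', (¬ PA z r' ∧ ¬ CA z r') → lA z r' r → ¬ z r' p)
    constructor
    · intro h4
      have h5 := h3 r hr h4
      subst h5
      refine ⟨(hz.rp r p r hr hp hr h4).2 (Or.inl rfl), fun r' h6 h7 h8 => ?_⟩
      have h6' := (eR r').2 h6
      have h7' := (lR r' r h6' hr).2 h7
      rcases (hz.rp r' p r h6' hp hr h4).1 h8 with h9 | h9
      · subst h9
        exact hb.dR.irrefl _ hr h7'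
      · exact hb.dR.irrefl _ hr (hb.dR.trans _ _ _ hr h6' hr h9 h7')
    · rintro ⟨h4, h5⟩
      rcases (hz.rp r p r1 hr hp h1 h2).1 h4 with h6 | h6
      · subst h6
        exact h2
      · exact absurd ((hz.rp r1 p r1 h1 hp h1 h2).2 (Or.inl rfl))
          (h5 r1 ((eR r1).1 h1) ((lR r1 r h1 hr).1 h6))
  · intro p c hp hc
    obtain ⟨c1, h1, h2, h3⟩ := hb.rC p hp
    show γ.iC p c ↔ (¬ z c p ∧ ∀ c', (¬ PA z c' ∧ CA z c') → lA z c' c → z c' p)
    constructor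
    · intro h4
      have h5 := h3 c hc h4
      subst h5
      refine ⟨fun h => hb.dC.irrefl _ hc ((hz.cp c p c hc hp hc h4).1 h), fun c' h6 h7 => ?_⟩
      have h6' := (eC c').2 h6
      exact (hz.cp c' p c h6' hp hc h4).2 ((lC c' c h6' hc).2 h7)
    · rintro ⟨h4, h5⟩
      rw [hz.cp c p c1 hc hp h1 h2] at h4
      by_cases hne : c = c1
      · subst hne
        exact h2
      · rcases hb.dC.total c c1 hc h1 hne with h6 | h6
        · exact absurd h6 h4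
        · have h7 := h5 c1 ((eC c1).1 h1) ((lC c1 c h1 hc).1 h6)
          exact absurd ((hz.cp c1 p c1 h1 hp h1 h2).1 h7) (hb.dC.irrefl _ h1)

end dec

end Pool.Agent.Run7.h653.FH
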