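import Pool.Agent.Run7.h653.FH.A1
import Pool.Agent.W889.VC.Inc2

/-!
The sixteen kinds of incidence graphs of grids are targets.
-/

set_option autoImplicit false
set_option linter.unusedVariables false

namespace Pool.Agent.Run7.h653.FH

open Pool.Agent.W889.VC
open Pool.Agent.W889.VC.Grid

section equi

variable {σ : Equiv.Perm ℕ} {y z : ℕ → ℕ → Prop}

theorem NV_equi (h : ∀ u v, y u v ↔ z (σ u) (σ v)) (p q : ℕ) : NV y p q ↔ NV z (σ p) (σ q) :=
  and_congr (σ.exists_congr fun w => and_congr (not_congr σ.injective.eq_iff.symm)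
      (and_congr (not_congr σ.injective.eq_iff.symm) (and_congr (h _ _) (not_congr (h _ _)))))
    (σ.exists_congr fun w => and_congr (not_congr σ.injective.eq_iff.symm)
      (and_congr (not_congr σ.injective.eq_iff.symm) (and_congr (h _ _) (not_congr (h _ _)))))

theorem PA_equi (h : ∀ u v, y u v ↔ z (σ u) (σ v)) (u : ℕ) : PA y u ↔ PA z (σ u) :=
  and_congr
    (σ.exists_congr fun a => σ.exists_congr fun b => and_congr (not_congr σ.injective.eq_iff.symm)
      (and_congr (not_congr σ.injective.eq_iff.symm) (and_congr (not_congr (NV_equi h _ _))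
        (and_congr (not_congr (NV_equi h _ _)) (NV_equi h _ _)))))
    (σ.exists_congr fun a => σ.exists_congr fun b => and_congr (NV_equi h _ _)
      (and_congr (NV_equi h _ _) (NV_equi h _ _)))

theorem CA_equi (h : ∀ u v, y u v ↔ z (σ u) (σ v)) (u : ℕ) : CA y u ↔ CA z (σ u) :=
  σ.forall_congr fun p => imp_congr (PA_equi h _) (imp_congr (h _ _) (σ.exists_congr fun u' =>
    and_congr (not_congr (PA_equi h _)) (and_congr (h _ _) (and_congr
      (σ.forall_congr fun q => imp_congr (PA_equi h _) (imp_congr (h _ _) (h _ _)))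
      (σ.exists_congr fun q => and_congr (PA_equi h _) (and_congr (h _ _)
        (not_congr (h _ _))))))))

theorem lA_equi (h : ∀ u v, y u v ↔ z (σ u) (σ v)) (u v : ℕ) :
    lA y u v ↔ lA z (σ u) (σ v) :=
  or_congr
    (and_congr (not_congr (CA_equi h _)) (σ.exists_congr fun q =>
      and_congr (PA_equi h _) (and_congr (h _ _) (not_congr (h _ _)))))
    (and_congr (CA_equi h _) (σ.exists_congr fun q =>
      and_congr (PA_equi h _) (and_congr (h _ _) (not_congr (h _ _)))))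

theorem mkA_equi (h : ∀ u v, y u v ↔ z (σ u) (σ v)) : GIso σ (mkA y) (mkA z) where
  R u := and_congr (not_congr (PA_equi h u)) (not_congr (CA_equi h u))
  C u := and_congr (not_congr (PA_equi h u)) (CA_equi h u)
  lR u v _ _ := lA_equi h u v
  lC u v _ _ := lA_equi h u v
  iR p r _ _ := and_congr (h _ _) (σ.forall_congr fun r' => imp_congr
    (and_congr (not_congr (PA_equi h _)) (not_congr (CA_equi h _)))
    (imp_congr (lA_equi h _ _) (not_congr (h _ _))))
  iC p c _ _ := and_congr (not_congr (h _ _)) (σ.forall_congr fun r' => imp_congr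
    (and_congr (not_congr (PA_equi h _)) (CA_equi h _))
    (imp_congr (lA_equi h _ _) (h _ _)))

end equi

section meas

variable {Y : Type} [MeasurableSpace Y] {r : ℕ → ℕ → Y → Prop} {bR bC bX bP : Prop}

theorem bp_NV (h : ∀ u v, BP (r u v)) (p q : ℕ) : BP (fun y => NV (fun u v => r u v y) p q) :=
  (BP.ex fun w => (BP.const (w ≠ p)).and <| (BP.const (w ≠ q)).and <| (h p w).and (h q w).not).and
  (BP.ex fun w => (BP.const (w ≠ p)).and <| (BP.const (w ≠ q)).and <| (h q w).and (h p w).not)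

theorem bp_PA (h : ∀ u v, BP (r u v)) (u : ℕ) : BP (fun y => PA (fun u v => r u v y) u) :=
  (BP.ex fun a => BP.ex fun b => (BP.const (a ≠ u)).and <| (BP.const (b ≠ u)).and <|
    (bp_NV h u a).not.and <| (bp_NV h u b).not.and (bp_NV h a b)).and
  (BP.ex fun a => BP.ex fun b => (bp_NV h u a).and <| (bp_NV h u b).and (bp_NV h a b))

theorem bp_CA (h : ∀ u v, BP (r u v)) (u : ℕ) : BP (fun y => CA (fun u v => r u v y) u) :=
  BP.all fun p => (bp_PA h p).imp <| (h u p).imp <| BP.ex fun u' => (bp_PA h u').not.and <|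
    (h u' p).and <| (BP.all fun q => (bp_PA h q).imp ((h u' q).imp (h u q))).and <|
    BP.ex fun q => (bp_PA h q).and ((h u q).and (h u' q).not)

theorem bp_lA (h : ∀ u v, BP (r u v)) (u v : ℕ) :
    BP (fun y => lA (fun u v => r u v y) u v) :=
  ((bp_CA h u).not.and (BP.ex fun q => (bp_PA h q).and ((h v q).and (h u q).not))).or
  ((bp_CA h u).and (BP.ex fun q => (bp_PA h q).and ((h u q).and (h v q).not)))

theorem mg_mkA (h : ∀ u v, BP (r u v)) : MG (fun y => mkA (fun u v => r u v y)) where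
  R u := (bp_PA h u).not.and (bp_CA h u).not
  C u := (bp_PA h u).not.and (bp_CA h u)
  lt u v := bp_lA h u v
  iR p c := (h c p).and (BP.all fun r' => ((bp_PA h r').not.and (bp_CA h r').not).imp
    ((bp_lA h r' c).imp (h r' p).not))
  iC p c := (h c p).not.and (BP.all fun r' => ((bp_PA h r').not.and (bp_CA h r')).imp
    ((bp_lA h r' c).imp (h r' p)))

theorem bp_arep {D : Y → Grid ℕ} (hD : MG D) (h : ∀ u v, BP (r u v)) :
    BP (fun y => ARep bR bC bX bP (D y) (fun u v => r u v y)) := by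
  have : BP (fun y =>
      (∀ u v, r u v y → r v u y) ∧
      (∀ u p w, (D y).R u → (D y).P p → (D y).R w → (D y).iR p w →
        (r u p y ↔ (w = u ∨ (D y).lt w u))) ∧
      (∀ u p w, (D y).C u → (D y).P p → (D y).C w → (D y).iC p w →
        (r u p y ↔ (D y).lt u w)) ∧
      (∀ u v, (D y).R u → (D y).R v → (r u v y ↔ (bR ∧ u ≠ v))) ∧
      (∀ u v, (D y).C u → (D y).C v → (r u v y ↔ (bC ∧ u ≠ v))) ∧
      (∀ u v, (D y).R u → (D y).C v → (r u v y ↔ bX)) ∧
      (∀ u v, (D y).P u → (D y).P v → (r u v y ↔ (bP ∧ u ≠ v)))) :=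
    (BP.all fun u => BP.all fun v => (h u v).imp (h v u)).and <|
    (BP.all fun u => BP.all fun p => BP.all fun w => (hD.R u).imp <| (hD.P p).imp <|
      (hD.R w).imp <| (hD.iR p w).imp <| (h u p).iff ((BP.const (w = u)).or (hD.lt w u))).and <|
    (BP.all fun u => BP.all fun p => BP.all fun w => (hD.C u).imp <| (hD.P p).imp <|
      (hD.C w).imp <| (hD.iC p w).imp <| (h u p).iff (hD.lt u w)).and <|
    (BP.all fun u => BP.all fun v => (hD.R u).imp <| (hD.R v).imp <|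
      (h u v).iff (BP.const _)).and <|
    (BP.all fun u => BP.all fun v => (hD.C u).imp <| (hD.C v).imp <|
      (h u v).iff (BP.const _)).and <|
    (BP.all fun u => BP.all fun v => (hD.R u).imp <| (hD.C v).imp <|
      (h u v).iff (BP.const _)).and <|
    BP.all fun u => BP.all fun v => (hD.P u).imp <| (hD.P v).imp <| (h u v).iff (BP.const _)
  exact this.congr fun y => ⟨fun ⟨h1, h2, h3, h4, h5, h6, h7⟩ => ⟨h1, h2, h3, h4, h5, h6, h7⟩,
    fun ⟨h1, h2, h3, h4, h5, h6, h7⟩ => ⟨h1, h2, h3, h4, h5, h6, h7⟩⟩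

end meas

section transport

variable {γ δ : Grid ℕ} {σ : Equiv.Perm ℕ} {y z : ℕ → ℕ → Prop} {bR bC bX bP : Prop}

theorem ARep.map (h : GIso σ γ δ) (hyz : ∀ u v, y u v ↔ z (σ u) (σ v))
    (hy : ARep bR bC bX bP γ y) : ARep bR bC bX bP δ z := by
  have ex : ∀ v, ∃ u, σ u = v := fun v => ⟨σ.symm v, σ.apply_symm_apply v⟩
  refine ⟨?_, ?_, ?_, ?_, ?_, ?_, ?_⟩
  · intro u v
    obtain ⟨u, rfl⟩ := ex u
    obtain ⟨v, rfl⟩ := ex v
    rw [← hyz, ← hyz]
    exact hy.symm u v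
  · intro u p r hu hp hr hi
    obtain ⟨u, rfl⟩ := ex u
    obtain ⟨p, rfl⟩ := ex p
    obtain ⟨r, rfl⟩ := ex r
    have hu' := (h.R u).2 hu
    have hp' := (h.P p).2 hp
    have hr' := (h.R r).2 hr
    rw [← hyz, hy.rp u p r hu' hp' hr' ((h.iR p r hp' hr').2 hi), h.lR r u hr' hu',
      σ.injective.eq_iff]
  · intro u p r hu hp hr hi
    obtain ⟨u, rfl⟩ := ex u
    obtain ⟨p, rfl⟩ := ex p
    obtain ⟨r, rfl⟩ := ex r
    have hu' := (h.C u).2 hu
    have hp' := (h.P p).2 hp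
    have hr' := (h.C r).2 hr
    rw [← hyz, hy.cp u p r hu' hp' hr' ((h.iC p r hp' hr').2 hi), h.lC u r hu' hr']
  · intro u v hu hv
    obtain ⟨u, rfl⟩ := ex u
    obtain ⟨v, rfl⟩ := ex v
    rw [← hyz, hy.rr u v ((h.R u).2 hu) ((h.R v).2 hv), ne_eq, ne_eq, σ.injective.eq_iff]
  · intro u v hu hv
    obtain ⟨u, rfl⟩ := ex u
    obtain ⟨v, rfl⟩ := ex v
    rw [← hyz, hy.cc u v ((h.C u).2 hu) ((h.C v).2 hv), ne_eq, ne_eq, σ.injective.eq_iff]
  · intro u v hu hv
    obtain ⟨u, rfl⟩ := ex u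
    obtain ⟨v, rfl⟩ := ex v
    rw [← hyz, hy.rc u v ((h.R u).2 hu) ((h.C v).2 hv)]
  · intro u v hu hv
    obtain ⟨u, rfl⟩ := ex u
    obtain ⟨v, rfl⟩ := ex v
    rw [← hyz, hy.pp u v ((h.P u).2 hu) ((h.P v).2 hv), ne_eq, ne_eq, σ.injective.eq_iff]

theorem ARep.iso (hb : Base γ) (h : GIso σ γ δ) (hy : ARep bR bC bX bP γ y)
    (hz : ARep bR bC bX bP δ z) (u v : ℕ) : y u v ↔ z (σ u) (σ v) := by
  have sy : ∀ u v, y u v ↔ y v u := fun u v => ⟨hy.symm u v, hy.symm v u⟩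
  have sz : ∀ u v, z u v ↔ z v u := fun u v => ⟨hz.symm u v, hz.symm v u⟩
  have k1 : ∀ u v, γ.R u → γ.P v → (y u v ↔ z (σ u) (σ v)) := by
    intro u v hu hv
    obtain ⟨r, h1, h2, -⟩ := hb.rR v hv
    rw [hy.rp u v r hu hv h1 h2, hz.rp _ _ (σ r) ((h.R u).1 hu) ((h.P v).1 hv) ((h.R r).1 h1)
      ((h.iR v r hv h1).1 h2), h.lR r u h1 hu, σ.injective.eq_iff]
  have k2 : ∀ u v, γ.C u → γ.P v → (y u v ↔ z (σ u) (σ v)) := by
    intro u v hu hv
    obtain ⟨r, h1, h2, -⟩ := hb.rC v hv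
    rw [hy.cp u v r hu hv h1 h2, hz.cp _ _ (σ r) ((h.C u).1 hu) ((h.P v).1 hv) ((h.C r).1 h1)
      ((h.iC v r hv h1).1 h2), h.lC u r hu h1]
  have k3 : ∀ u v, γ.R u → γ.C v → (y u v ↔ z (σ u) (σ v)) := by
    intro u v hu hv
    rw [hy.rc u v hu hv, hz.rc _ _ ((h.R u).1 hu) ((h.C v).1 hv)]
  rcases cases3 γ u with hu | hu | hu <;> rcases cases3 γ v with hv | hv | hv
  · rw [hy.rr u v hu hv, hz.rr _ _ ((h.R u).1 hu) ((h.R v).1 hv), ne_eq, ne_eq,
      σ.injective.eq_iff]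
  · exact k3 u v hu hv
  · exact k1 u v hu hv
  · rw [sy, sz]
    exact k3 v u hv hu
  · rw [hy.cc u v hu hv, hz.cc _ _ ((h.C u).1 hu) ((h.C v).1 hv), ne_eq, ne_eq,
      σ.injective.eq_iff]
  · exact k2 u v hu hv
  · rw [sy, sz]
    exact k1 v u hv hu
  · rw [sy, sz]
    exact k2 v u hv hu
  · rw [hy.pp u v hu hv, hz.pp _ _ ((h.P u).1 hu) ((h.P v).1 hv), ne_eq, ne_eq,
      σ.injective.eq_iff]

/-- the graph of a grid -/
def ar (bR bC bX bP : Prop) (γ : Grid ℕ) (u v : ℕ) : Prop :=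
  (γ.R u ∧ γ.R v ∧ bR ∧ u ≠ v) ∨ (γ.C u ∧ γ.C v ∧ bC ∧ u ≠ v) ∨
  (γ.R u ∧ γ.C v ∧ bX) ∨ (γ.C u ∧ γ.R v ∧ bX) ∨ jr bP γ u v

theorem ar_rep (hb : Base γ) : ARep bR bC bX bP γ (ar bR bC bX bP γ) := by
  have nR : ∀ {u}, γ.R u → ¬ γ.P u := fun h h' => h'.1 h
  have nC : ∀ {u}, γ.C u → ¬ γ.P u := fun h h' => h'.2 h
  have nRC : ∀ {u}, γ.R u → ¬ γ.C u := fun h => hb.disj _ h
  have nCR : ∀ {u}, γ.C u → ¬ γ.R u := fun h h' => hb.disj _ h' h
  have hj : JRep bP γ (jr bP γ) := jr_rep hb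
  refine ⟨?_, ?_, ?_, ?_, ?_, ?_, ?_⟩
  · rintro u v (⟨h1, h2, h3, h4⟩ | ⟨h1, h2, h3, h4⟩ | ⟨h1, h2, h3⟩ | ⟨h1, h2, h3⟩ | h)
    · exact Or.inl ⟨h2, h1, h3, h4.symm⟩
    · exact Or.inr (Or.inl ⟨h2, h1, h3, h4.symm⟩)
    · exact Or.inr (Or.inr (Or.inr (Or.inl ⟨h2, h1, h3⟩)))
    · exact Or.inr (Or.inr (Or.inl ⟨h2, h1, h3⟩))
    · exact Or.inr (Or.inr (Or.inr (Or.inr (hj.symm _ _ h))))
  · intro u p r hu hp hr hi
    rw [← hj.rp u p r hu hp hr hi]
    constructor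
    · rintro (⟨-, h2, -⟩ | ⟨-, h2, -⟩ | ⟨-, h2, -⟩ | ⟨-, h2, -⟩ | h)
      · exact absurd hp (nR h2)
      · exact absurd hp (nC h2)
      · exact absurd hp (nC h2)
      · exact absurd hp (nR h2)
      · exact h
    · exact fun h => Or.inr (Or.inr (Or.inr (Or.inr h)))
  · intro u p r hu hp hr hi
    rw [← hj.cp u p r hu hp hr hi]
    constructor
    · rintro (⟨-, h2, -⟩ | ⟨-, h2, -⟩ | ⟨-, h2, -⟩ | ⟨-, h2, -⟩ | h)
      · exact absurd hp (nR h2)
      · exact absurd hp (nC h2)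
      · exact absurd hp (nC h2)
      · exact absurd hp (nR h2)
      · exact h
    · exact fun h => Or.inr (Or.inr (Or.inr (Or.inr h)))
  · intro u v hu hv
    constructor
    · rintro (⟨-, -, h⟩ | ⟨h1, -⟩ | ⟨-, h2, -⟩ | ⟨h1, -⟩ | h)
      · exact h
      · exact absurd h1 (nRC hu)
      · exact absurd h2 (nRC hv)
      · exact absurd h1 (nRC hu)
      · exact absurd h (hj.mm u v (nR hu) (nR hv))
    · exact fun h => Or.inl ⟨hu, hv, h⟩
  · intro u v hu hv
    constructor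
    · rintro (⟨h1, -⟩ | ⟨-, -, h⟩ | ⟨h1, -⟩ | ⟨-, h2, -⟩ | h)
      · exact absurd h1 (nCR hu)
      · exact h
      · exact absurd h1 (nCR hu)
      · exact absurd h2 (nCR hv)
      · exact absurd h (hj.mm u v (nC hu) (nC hv))
    · exact fun h => Or.inr (Or.inl ⟨hu, hv, h⟩)
  · intro u v hu hv
    constructor
    · rintro (⟨-, h2, -⟩ | ⟨h1, -⟩ | ⟨-, -, h⟩ | ⟨h1, -⟩ | h)
      · exact absurd h2 (nCR hv)
      · exact absurd h1 (nRC hu)
      · exact h
      · exact absurd h1 (nRC hu)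
      · exact absurd h (hj.mm u v (nR hu) (nC hv))
    · exact fun h => Or.inr (Or.inr (Or.inl ⟨hu, hv, h⟩))
  · intro u v hu hv
    rw [← hj.pp u v hu hv]
    constructor
    · rintro (⟨h1, -⟩ | ⟨h1, -⟩ | ⟨h1, -⟩ | ⟨h1, -⟩ | h)
      · exact absurd hu (nR h1)
      · exact absurd hu (nC h1)
      · exact absurd hu (nR h1)
      · exact absurd hu (nC h1)
      · exact h
    · exact fun h => Or.inr (Or.inr (Or.inr (Or.inr h)))

end transport

/-- decoding of graphs -/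
def DA (y : BinStr) : Grid ℕ := mkA (fun u v => y u v = true)

/-- the graph is represented by its grid -/
def WA (bR bC bX bP : Prop) (y : BinStr) : Prop := ARep bR bC bX bP (DA y) (fun u v => y u v = true)

theorem DA_equi {σ : Equiv.Perm ℕ} {y z : BinStr}
    (h : ∀ m n, z (σ m) (σ n) = y m n) : GIso σ (DA y) (DA z) :=
  mkA_equi (fun u v => by rw [h])

/-- grids can be described in graphs -/
theorem target_A (bR bC bX bP : Prop) (K : BinStr → Prop)
    (hK : ∀ γ : Grid ℕ, Base γ → ∀ y : BinStr, ARep bR bC bX bP γ (fun u v => y u v = true) → K y) :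
    Target BIso K DA (WA bR bC bX bP) where
  symm _ _ h := h.symm
  mg := mg_mkA bp_atom
  mW := bp_arep (mg_mkA bp_atom) bp_atom
  inv := by
    rintro y z ⟨σ, h⟩ h1
    exact h1.map (DA_equi h) (fun u v => by rw [h])
  iso := by
    rintro y z ⟨σ, h⟩
    exact ⟨σ, DA_equi h⟩
  iso' := by
    rintro y z h1 h3 hb hb' ⟨σ, h⟩
    refine ⟨σ, fun m n => ?_⟩
    rw [Bool.eq_iff_iff]
    exact (ARep.iso hb h h1 h3 m n).symm
  ex := by
    classical
    intro γ hb hr0 hc0 hf _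
    let y : BinStr := fun u v => decide (ar bR bC bX bP γ u v)
    have hy : (fun u v => y u v = true) = ar bR bC bX bP γ := by
      funext u v
      simp [y]
    have h1 : ARep bR bC bX bP γ (fun u v => y u v = true) := by rw [hy]; exact ar_rep hb
    have h5 : GIso (Equiv.refl ℕ) γ (DA y) := mkA_iso hb hr0 hc0 hf h1
    exact ⟨y, h1.map h5 (fun _ _ => Iff.rfl), h5⟩
  cls y hW hb := hK _ hb y hW

end Pool.Agent.Run7.h653.FH
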