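import Pool.Agent.Run7.h653.FH.A2

/-!
Grids as interval graphs and interval orders with intervals of almost equal lengths.
-/

set_option autoImplicit false
set_option linter.unusedVariables false

namespace Pool.Agent.Run7.h653.FH

open Pool.Agent.W889.VC
open Pool.Agent.W889.VC.Grid

/-- two positions for each row and each column, between `-1` and `1` -/
theorem exists_pos3 {γ : Grid ℕ} (hb : Base γ) : ∃ s t : ℕ → ℝ,
    (∀ u, -1 < s u ∧ s u < 1 ∧ -1 < t u ∧ t u < 1) ∧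
    (∀ u, ¬ γ.P u → s u < t u) ∧
    (∀ u v, γ.R u → γ.R v → γ.lt u v → t u < s v) ∧
    (∀ u v, γ.C u → γ.C v → γ.lt u v → t u < s v) ∧
    (∀ u v, γ.R u → γ.C v → t u < s v) := by
  classical
  obtain ⟨e, he⟩ := ord_emb (S := {u : ℕ // γ.R u ∨ γ.C u} × Bool)
    (fun a b => before γ a.1.1 b.1.1 ∨ (a.1 = b.1 ∧ a.2 = false ∧ b.2 = true))
    (by
      rintro ⟨a, i⟩ (h | ⟨-, h1, h2⟩)
      · exact before_irrefl hb a.1 h
      · exact absurd (h1.symm.trans h2) (by simp))
    (by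
      rintro ⟨a, i⟩ ⟨b, j⟩ ⟨c, k⟩ (h | ⟨h1, h2, h3⟩) (h' | ⟨h1', h2', h3'⟩)
      · exact Or.inl (before_trans hb h h')
      · left
        simp only at h1' ⊢
        rw [← h1']
        exact h
      · left
        simp only at h1 ⊢
        rw [h1]
        exact h'
      · exact absurd (h3.symm.trans h2') (by simp))
    (by
      rintro ⟨a, i⟩ ⟨b, j⟩ hne
      by_cases hab : a = b
      · subst hab
        have hij : i ≠ j := fun h => hne (by rw [h])
        cases i <;> cases j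
        · exact absurd rfl hij
        · exact Or.inl (Or.inr ⟨rfl, rfl, rfl⟩)
        · exact Or.inr (Or.inr ⟨rfl, rfl, rfl⟩)
        · exact absurd rfl hij
      · rcases before_total hb a.2 b.2 (fun h => hab (Subtype.ext h)) with h | h
        · exact Or.inl (Or.inl h)
        · exact Or.inr (Or.inl h))
  let g : ℚ → ℝ := fun x => (orderIsoIooNegOneOne ℝ (x : ℝ)).1
  have hg : ∀ x y : ℚ, x < y → g x < g y := by
    intro x y hxy
    have : orderIsoIooNegOneOne ℝ (x : ℝ) < orderIsoIooNegOneOne ℝ (y : ℝ) :=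
      (orderIsoIooNegOneOne ℝ).strictMono (by exact_mod_cast hxy)
    exact this
  have hg1 : ∀ x, -1 < g x ∧ g x < 1 := fun x => (orderIsoIooNegOneOne ℝ (x : ℝ)).2
  have hP : ∀ u, ¬ γ.P u → γ.R u ∨ γ.C u := fun u h => cases3' γ u h
  refine ⟨fun u => if h : γ.R u ∨ γ.C u then g (e (⟨u, h⟩, false)) else 0,
    fun u => if h : γ.R u ∨ γ.C u then g (e (⟨u, h⟩, true)) else 0, ?_, ?_, ?_, ?_, ?_⟩
  · intro u
    by_cases h : γ.R u ∨ γ.C u
    · simp only [dif_pos h]
      exact ⟨(hg1 _).1, (hg1 _).2, (hg1 _).1, (hg1 _).2⟩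
    · simp only [dif_neg h]
      norm_num
  · intro u hu
    have h := hP u hu
    simp only [dif_pos h]
    exact hg _ _ ((he _ _).1 (Or.inr ⟨rfl, rfl, rfl⟩))
  · intro u v hu hv huv
    simp only [dif_pos (Or.inl hu : γ.R u ∨ γ.C u), dif_pos (Or.inl hv : γ.R v ∨ γ.C v)]
    exact hg _ _ ((he _ _).1 (Or.inl (Or.inl ⟨hu, hv, huv⟩)))
  · intro u v hu hv huv
    simp only [dif_pos (Or.inr hu : γ.R u ∨ γ.C u), dif_pos (Or.inr hv : γ.R v ∨ γ.C v)]
    exact hg _ _ ((he _ _).1 (Or.inl (Or.inr (Or.inl ⟨hu, hv, huv⟩))))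
  · intro u v hu hv
    simp only [dif_pos (Or.inl hu : γ.R u ∨ γ.C u), dif_pos (Or.inr hv : γ.R v ∨ γ.C v)]
    exact hg _ _ ((he _ _).1 (Or.inl (Or.inr (Or.inr ⟨hu, hv⟩))))

/-- `u` is of a kind to the left of the kind of `v` -/
def Lft (γ : Grid ℕ) (u v : ℕ) : Prop := (γ.R u ∧ (γ.P v ∨ γ.C v)) ∨ (γ.P u ∧ γ.C v)

/-- The graph of a grid in which rows, columns and points are cliques and rows and columns are not
adjacent is an interval graph with intervals of lengths between `1` and `q`. -/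
theorem exists_int {γ : Grid ℕ} (hb : Base γ) {z : ℕ → ℕ → Prop}
    (hz : ARep True True False True γ z) {q : ℝ} (hq : 1 < q) : ∃ l r : ℕ → ℝ,
    (∀ u, 1 ≤ r u - l u ∧ r u - l u ≤ q) ∧
    (∀ u v, z u v ↔ (u ≠ v ∧ l u ≤ r v ∧ l v ≤ r u)) ∧
    ∀ u v, r u < l v ↔ (Lft γ u v ∧ ¬ z u v) := by
  classical
  obtain ⟨s, t, b, st, R1, C1, X1⟩ := exists_pos3 hb
  have nR : ∀ {u}, γ.R u → ¬ γ.P u := fun h h' => h'.1 h
  have nC : ∀ {u}, γ.C u → ¬ γ.P u := fun h h' => h'.2 h
  have nRC : ∀ {u}, γ.R u → ¬ γ.C u := fun h => hb.disj _ h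
  have nCR : ∀ {u}, γ.C u → ¬ γ.R u := fun h h' => hb.disj _ h' h
  obtain ⟨δ, d0, d1, d2⟩ : ∃ δ : ℝ, 0 < δ ∧ δ ≤ 1 / 8 ∧ 8 * δ ≤ q - 1 := by
    refine ⟨min (1 / 8) ((q - 1) / 8), lt_min (by norm_num) (by linarith), min_le_left _ _, ?_⟩
    have := min_le_right (1 / 8 : ℝ) ((q - 1) / 8)
    linarith
  have hex : ∀ p, ∃ r c, γ.P p → γ.R r ∧ γ.iR p r ∧ γ.C c ∧ γ.iC p c := by
    intro p
    by_cases hp : γ.P p
    · obtain ⟨r, h1, h2, -⟩ := hb.rR p hp
      obtain ⟨c, h3, h4, -⟩ := hb.rC p hp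
      exact ⟨r, c, fun _ => ⟨h1, h2, h3, h4⟩⟩
    · exact ⟨0, 0, fun h => absurd h hp⟩
  choose ro co hrc using hex
  let l : ℕ → ℝ := fun u => if γ.R u then δ * s u - 1 else if γ.C u then 1 + 2 * δ + δ * t u else
    δ * s (ro u)
  let r : ℕ → ℝ := fun u => if γ.R u then δ * s u else if γ.C u then 2 + 2 * δ + δ * t u else
    1 + 2 * δ + δ * s (co u)
  have lR : ∀ {u}, γ.R u → l u = δ * s u - 1 := fun h => if_pos h
  have rR : ∀ {u}, γ.R u → r u = δ * s u := fun h => if_pos h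
  have lC : ∀ {u}, γ.C u → l u = 1 + 2 * δ + δ * t u := fun {u} h => by
    show (if γ.R u then _ else _) = _
    rw [if_neg (nCR h), if_pos h]
  have rC : ∀ {u}, γ.C u → r u = 2 + 2 * δ + δ * t u := fun {u} h => by
    show (if γ.R u then _ else _) = _
    rw [if_neg (nCR h), if_pos h]
  have lP : ∀ {u}, γ.P u → l u = δ * s (ro u) := fun {u} h => by
    show (if γ.R u then _ else _) = _
    rw [if_neg h.1, if_neg h.2]
  have rP : ∀ {u}, γ.P u → r u = 1 + 2 * δ + δ * s (co u) := fun {u} h => by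
    show (if γ.R u then _ else _) = _
    rw [if_neg h.1, if_neg h.2]
  have bs : ∀ u, -δ < δ * s u ∧ δ * s u < δ := fun u => by
    have h1 := mul_lt_mul_of_pos_left (b u).1 d0
    have h2 := mul_lt_mul_of_pos_left (b u).2.1 d0
    exact ⟨by linarith, by linarith⟩
  have bt : ∀ u, -δ < δ * t u ∧ δ * t u < δ := fun u => by
    have h1 := mul_lt_mul_of_pos_left (b u).2.2.1 d0
    have h2 := mul_lt_mul_of_pos_left (b u).2.2.2 d0
    exact ⟨by linarith, by linarith⟩
  have ml : ∀ x y : ℝ, δ * x < δ * y ↔ x < y := fun x y => mul_lt_mul_iff_right₀ d0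
  -- same kind: the intervals meet
  have mRR : ∀ u v, γ.R u → γ.R v → l u ≤ r v := by
    intro u v hu hv
    rw [lR hu, rR hv]
    have := bs u
    have := bs v
    linarith
  have mCC : ∀ u v, γ.C u → γ.C v → l u ≤ r v := by
    intro u v hu hv
    rw [lC hu, rC hv]
    have := bt u
    have := bt v
    linarith
  have mPP : ∀ u v, γ.P u → γ.P v → l u ≤ r v := by
    intro u v hu hv
    rw [lP hu, rP hv]
    have := bs (ro u)
    have := bs (co v)
    linarith
  have mRC : ∀ u v, γ.R u → γ.C v → r u < l v := by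
    intro u v hu hv
    rw [rR hu, lC hv]
    have := bs u
    have := bt v
    linarith
  have mRP' : ∀ u v, γ.R u → γ.P v → l u ≤ r v := by
    intro u v hu hv
    rw [lR hu, rP hv]
    have := bs u
    have := bs (co v)
    linarith
  have mCP' : ∀ u v, γ.C u → γ.P v → l v ≤ r u := by
    intro u v hu hv
    rw [rC hu, lP hv]
    have := bt u
    have := bs (ro v)
    linarith
  have mRP : ∀ u v, γ.R u → γ.P v → (z u v ↔ l v ≤ r u) := by
    intro u v hu hv
    obtain ⟨k1, k2, k3, k4⟩ := hrc v hv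
    rw [hz.rp u v (ro v) hu hv k1 k2, lP hv, rR hu]
    constructor
    · rintro (h | h)
      · rw [h]
      · exact ((ml _ _).2 ((st _ (nR k1)).trans (R1 _ _ k1 hu h))).le
    · intro h
      by_cases he : ro v = u
      · exact Or.inl he
      · rcases hb.dR.total _ _ k1 hu he with h' | h'
        · exact Or.inr h'
        · have := (ml _ _).2 ((st _ (nR hu)).trans (R1 _ _ hu k1 h'))
          linarith
  have mCP : ∀ u v, γ.C u → γ.P v → (z u v ↔ l u ≤ r v) := by
    intro u v hu hv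
    obtain ⟨k1, k2, k3, k4⟩ := hrc v hv
    rw [hz.cp u v (co v) hu hv k3 k4, lC hu, rP hv]
    constructor
    · intro h
      have := (ml _ _).2 (C1 _ _ hu k3 h)
      linarith
    · intro h
      by_cases he : u = co v
      · have := (ml _ _).2 (st _ (nC hu))
        rw [← he] at h
        linarith
      · rcases hb.dC.total _ _ hu k3 he with h' | h'
        · exact h'
        · have h2 := (ml _ _).2 (C1 _ _ k3 hu h')
          have h3 := (ml _ _).2 (st _ (nC k3))
          have h4 := (ml _ _).2 (st _ (nC hu))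
          linarith
  have sy : ∀ u v, z u v ↔ z v u := fun u v => ⟨hz.symm u v, hz.symm v u⟩
  have dis : ∀ {u v}, ¬ γ.P u → γ.P v → u ≠ v := fun h h' e => h (e ▸ h')
  refine ⟨l, r, ?_, ?_, ?_⟩
  · intro u
    rcases cases3 γ u with hu | hu | hu
    · rw [lR hu, rR hu]
      exact ⟨by linarith, by linarith⟩
    · rw [lC hu, rC hu]
      exact ⟨by linarith, by linarith⟩
    · obtain ⟨k1, k2, k3, k4⟩ := hrc u hu
      rw [lP hu, rP hu]
      have h1 := bs (ro u)
      have h2 := bs (co u)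
      have h3 := (ml _ _).2 ((st _ (nR k1)).trans (X1 _ _ k1 k3))
      exact ⟨by linarith, by linarith⟩
  · intro u v
    rcases cases3 γ u with hu | hu | hu <;> rcases cases3 γ v with hv | hv | hv
    · rw [hz.rr u v hu hv]
      exact ⟨fun h => ⟨h.2, mRR u v hu hv, mRR v u hv hu⟩, fun h => ⟨trivial, h.1⟩⟩
    · rw [hz.rc u v hu hv]
      exact iff_of_false not_false fun h => absurd h.2.2 (not_le.2 (mRC u v hu hv))
    · rw [mRP u v hu hv]
      exact ⟨fun h => ⟨dis (nR hu) hv, mRP' u v hu hv, h⟩, fun h => h.2.2⟩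
    · rw [sy, hz.rc v u hv hu]
      exact iff_of_false not_false fun h => absurd h.2.1 (not_le.2 (mRC v u hv hu))
    · rw [hz.cc u v hu hv]
      exact ⟨fun h => ⟨h.2, mCC u v hu hv, mCC v u hv hu⟩, fun h => ⟨trivial, h.1⟩⟩
    · rw [mCP u v hu hv]
      exact ⟨fun h => ⟨dis (nC hu) hv, h, mCP' u v hu hv⟩, fun h => h.2.1⟩
    · rw [sy, mRP v u hv hu]
      exact ⟨fun h => ⟨(dis (nR hv) hu).symm, h, mRP' v u hv hu⟩, fun h => h.2.1⟩
    · rw [sy, mCP v u hv hu]
      exact ⟨fun h => ⟨(dis (nC hv) hu).symm, mCP' v u hv hu, h⟩, fun h => h.2.2⟩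
    · rw [hz.pp u v hu hv]
      exact ⟨fun h => ⟨h.2, mPP u v hu hv, mPP v u hv hu⟩, fun h => ⟨trivial, h.1⟩⟩
  · intro u v
    have nL : ∀ {u v}, γ.P u → ¬ γ.C v → ¬ Lft γ u v := by
      rintro u v h1 h2 (⟨h3, -⟩ | ⟨-, h3⟩)
      · exact nR h3 h1
      · exact h2 h3
    have nL' : ∀ {u v}, γ.C u → ¬ Lft γ u v := by
      rintro u v h1 (⟨h3, -⟩ | ⟨h3, -⟩)
      · exact nCR h1 h3
      · exact nC h1 h3
    have nL'' : ∀ {u v}, γ.R v → ¬ Lft γ u v := by
      rintro u v h1 (⟨-, h3 | h3⟩ | ⟨-, h3⟩)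
      · exact nR h1 h3
      · exact nRC h1 h3
      · exact nRC h1 h3
    rcases cases3 γ u with hu | hu | hu <;> rcases cases3 γ v with hv | hv | hv
    · exact iff_of_false (not_lt.2 (mRR v u hv hu)) fun h => nL'' hv h.1
    · refine iff_of_true (mRC u v hu hv) ⟨Or.inl ⟨hu, Or.inr hv⟩, ?_⟩
      rw [hz.rc u v hu hv]
      exact not_false
    · rw [mRP u v hu hv, not_le]
      exact ⟨fun h => ⟨Or.inl ⟨hu, Or.inl hv⟩, h⟩, fun h => h.2⟩
    · refine iff_of_false ?_ fun h => nL' hu h.1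
      have h1 := mRC v u hv hu
      rw [rC hu, lR hv]
      have := bs v
      have := bt u
      linarith
    · exact iff_of_false (not_lt.2 (mCC v u hv hu)) fun h => nL' hu h.1
    · exact iff_of_false (not_lt.2 (mCP' u v hu hv)) fun h => nL' hu h.1
    · exact iff_of_false (not_lt.2 (mRP' v u hv hu)) fun h => nL'' hv h.1
    · rw [sy, mCP v u hv hu, not_le]
      exact ⟨fun h => ⟨Or.inr ⟨hu, hv⟩, h⟩, fun h => h.2⟩
    · exact iff_of_false (not_lt.2 (mPP v u hv hu)) fun h => nL hu hv.2 h.1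

end Pool.Agent.Run7.h653.FH
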