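import Pool.Agent.Run7.h653.FH.Len
import Pool.Agent.W889.VC.HF

/-!
Grids as interval orders with intervals of almost equal lengths: targets.
-/

set_option autoImplicit false
set_option linter.unusedVariables false

namespace Pool.Agent.Run7.h653.FH

open Pool.Agent.W889.VC
open Pool.Agent.W889.VC.Grid

/-- incomparability -/
def inc (y : ℕ → ℕ → Prop) (u v : ℕ) : Prop := u ≠ v ∧ ¬ y u v ∧ ¬ y v u

/-- decoding of orders -/
def DO (y : BinStr) : Grid ℕ := mkA (inc fun u v => y u v = true)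

/-- the order is represented by its grid -/
def WO (y : BinStr) : Prop :=
  ARep True True False True (DO y) (inc fun u v => y u v = true) ∧
  ∀ u v, y u v = true ↔ (Lft (DO y) u v ∧ ¬ inc (fun u v => y u v = true) u v)

theorem inc_equi {σ : Equiv.Perm ℕ} {y z : ℕ → ℕ → Prop} (h : ∀ u v, y u v ↔ z (σ u) (σ v))
    (u v : ℕ) : inc y u v ↔ inc z (σ u) (σ v) :=
  and_congr (not_congr σ.injective.eq_iff.symm) (and_congr (not_congr (h _ _)) (not_congr (h _ _)))

theorem Lft_map {γ δ : Grid ℕ} {σ : Equiv.Perm ℕ} (h : GIso σ γ δ) (u v : ℕ) :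
    Lft γ u v ↔ Lft δ (σ u) (σ v) :=
  or_congr (and_congr (h.R u) (or_congr (h.P v) (h.C v))) (and_congr (h.P u) (h.C v))

theorem bp_inc (u v : ℕ) : BP (fun y : BinStr => inc (fun u v => y u v = true) u v) :=
  (BP.const (u ≠ v)).and <| (bp_atom u v).not.and (bp_atom v u).not

theorem mg_DO : MG DO := mg_mkA (r := fun u v (y : BinStr) => inc (fun u v => y u v = true) u v)
  bp_inc

theorem bp_WO : BP WO := by
  have h1 : BP (fun y : BinStr => ARep True True False True (DO y)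
      (fun u v => inc (fun u v => y u v = true) u v)) := bp_arep mg_DO bp_inc
  have h2 : BP (fun y : BinStr => ∀ u v, y u v = true ↔
      ((((DO y).R u ∧ ((DO y).P v ∨ (DO y).C v)) ∨ ((DO y).P u ∧ (DO y).C v)) ∧
        ¬ inc (fun u v => y u v = true) u v)) :=
    BP.all fun u => BP.all fun v => (bp_atom u v).iff
      ((((mg_DO.R u).and ((mg_DO.P v).or (mg_DO.C v))).or ((mg_DO.P u).and (mg_DO.C v))).and
        (bp_inc u v).not)
  exact h1.and h2

theorem DO_equi {σ : Equiv.Perm ℕ} {y z : BinStr}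
    (h : ∀ m n, z (σ m) (σ n) = y m n) : GIso σ (DO y) (DO z) :=
  mkA_equi (inc_equi fun u v => by rw [h])

/-- grids can be described in interval orders -/
theorem target_O (K : BinStr → Prop)
    (hK : ∀ γ : Grid ℕ, Base γ → ∀ y : BinStr,
      ARep True True False True γ (inc fun u v => y u v = true) →
      (∀ u v, y u v = true ↔ (Lft γ u v ∧ ¬ inc (fun u v => y u v = true) u v)) → K y) :
    Target BIso K DO WO where
  symm _ _ h := h.symm
  mg := mg_DO
  mW := bp_WO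
  inv := by
    rintro y z ⟨σ, h⟩ ⟨h1, h2⟩
    have e := DO_equi h
    have hi := inc_equi (σ := σ) (y := fun u v => y u v = true) (z := fun u v => z u v = true)
      (fun u v => by rw [h])
    refine ⟨h1.map e hi, fun u v => ?_⟩
    obtain ⟨u, rfl⟩ : ∃ u', σ u' = u := ⟨σ.symm u, σ.apply_symm_apply u⟩
    obtain ⟨v, rfl⟩ : ∃ v', σ v' = v := ⟨σ.symm v, σ.apply_symm_apply v⟩
    rw [h, h2 u v, Lft_map e, hi u v]
  iso := by
    rintro y z ⟨σ, h⟩
    exact ⟨σ, DO_equi h⟩
  iso' := by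
    rintro y z ⟨h1, h2⟩ ⟨h3, h4⟩ hb hb' ⟨σ, h⟩
    refine ⟨σ, fun m n => ?_⟩
    have hi := ARep.iso hb h h1 h3 m n
    rw [Bool.eq_iff_iff, h4, h2, Lft_map h, hi]
  ex := by
    classical
    intro γ hb hr0 hc0 hf _
    let z : ℕ → ℕ → Prop := ar True True False True γ
    have hz : ARep True True False True γ z := ar_rep hb
    let y : BinStr := fun u v => decide (Lft γ u v ∧ ¬ z u v)
    have hy : ∀ u v, y u v = true ↔ (Lft γ u v ∧ ¬ z u v) := fun u v => decide_eq_true_iff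
    have nR : ∀ {u}, γ.R u → ¬ γ.P u := fun h h' => h'.1 h
    have nC : ∀ {u}, γ.C u → ¬ γ.P u := fun h h' => h'.2 h
    have sy : ∀ u v, z u v → z v u := hz.symm
    have hinc : (inc fun u v => y u v = true) = z := by
      funext u v
      refine propext ?_
      show (u ≠ v ∧ ¬ y u v = true ∧ ¬ y v u = true) ↔ z u v
      rw [hy, hy]
      constructor
      · rintro ⟨h1, h2, h3⟩
        by_contra hn
        have hn' : ¬ z v u := fun h => hn (sy _ _ h)
        have h2' : ¬ Lft γ u v := fun h => h2 ⟨h, hn⟩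
        have h3' : ¬ Lft γ v u := fun h => h3 ⟨h, hn'⟩
        rcases cases3 γ u with hu | hu | hu <;> rcases cases3 γ v with hv | hv | hv
        · exact hn ((hz.rr u v hu hv).2 ⟨trivial, h1⟩)
        · exact h2' (Or.inl ⟨hu, Or.inr hv⟩)
        · exact h2' (Or.inl ⟨hu, Or.inl hv⟩)
        · exact h3' (Or.inl ⟨hv, Or.inr hu⟩)
        · exact hn ((hz.cc u v hu hv).2 ⟨trivial, h1⟩)
        · exact h3' (Or.inr ⟨hv, hu⟩)
        · exact h3' (Or.inl ⟨hv, Or.inl hu⟩)
        · exact h2' (Or.inr ⟨hu, hv⟩)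
        · exact hn ((hz.pp u v hu hv).2 ⟨trivial, h1⟩)
      · intro h
        refine ⟨?_, fun h' => h'.2 h, fun h' => h'.2 (sy _ _ h)⟩
        rintro rfl
        rcases cases3 γ u with hu | hu | hu
        · exact ((hz.rr u u hu hu).1 h).2 rfl
        · exact ((hz.cc u u hu hu).1 h).2 rfl
        · exact ((hz.pp u u hu hu).1 h).2 rfl
    have h1 : ARep True True False True γ (inc fun u v => y u v = true) := by rw [hinc]; exact hz
    have h5 : GIso (Equiv.refl ℕ) γ (DO y) := mkA_iso hb hr0 hc0 hf h1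
    refine ⟨y, ⟨h1.map h5 (fun _ _ => Iff.rfl), fun u v => ?_⟩, h5⟩
    rw [hy, hinc, Lft_map h5]
    exact Iff.rfl
  cls y hW hb := hK _ hb y hW.1 hW.2

/-! ### the classes -/

/-- interval graphs with intervals of lengths between `1` and `q`, whose vertices are covered by three
cliques -/
def IG3 (q : ℝ) (y : BinStr) : Prop :=
  (∃ l r : ℕ → ℝ, (∀ u, 1 ≤ r u - l u ∧ r u - l u ≤ q) ∧
    ∀ u v, y u v = true ↔ (u ≠ v ∧ l u ≤ r v ∧ l v ≤ r u)) ∧
  ∃ c : ℕ → Fin 3, ∀ u v, u ≠ v → c u = c v → y u v = true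

/-- interval orders with intervals of lengths between `1` and `q`, whose elements are covered by three
antichains -/
def IO3 (q : ℝ) (y : BinStr) : Prop :=
  (∃ l r : ℕ → ℝ, (∀ u, 1 ≤ r u - l u ∧ r u - l u ≤ q) ∧ ∀ u v, y u v = true ↔ r u < l v) ∧
  ∃ c : ℕ → Fin 3, ∀ u v, c u = c v → y u v = false

open Classical in
/-- the kind -/
noncomputable def kind (γ : Grid ℕ) (u : ℕ) : Fin 3 := if γ.R u then 0 else if γ.C u then 1 else 2

theorem kind_eq {γ : Grid ℕ} {u v : ℕ} (h : kind γ u = kind γ v) :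
    (γ.R u ∧ γ.R v) ∨ (γ.C u ∧ γ.C v) ∨ (γ.P u ∧ γ.P v) := by
  unfold kind at h
  by_cases h1 : γ.R u <;> by_cases h2 : γ.R v
  · exact Or.inl ⟨h1, h2⟩
  · rw [if_pos h1, if_neg h2] at h
    by_cases h3 : γ.C v
    · rw [if_pos h3] at h
      exact absurd h (by decide)
    · rw [if_neg h3] at h
      exact absurd h (by decide)
  · rw [if_pos h2, if_neg h1] at h
    by_cases h3 : γ.C u
    · rw [if_pos h3] at h
      exact absurd h (by decide)
    · rw [if_neg h3] at h
      exact absurd h (by decide)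
  · rw [if_neg h1, if_neg h2] at h
    by_cases h3 : γ.C u <;> by_cases h4 : γ.C v
    · exact Or.inr (Or.inl ⟨h3, h4⟩)
    · rw [if_pos h3, if_neg h4] at h
      exact absurd h (by decide)
    · rw [if_pos h4, if_neg h3] at h
      exact absurd h (by decide)
    · exact Or.inr (Or.inr ⟨⟨h1, h3⟩, ⟨h2, h4⟩⟩)

theorem faithful_IG3 {q : ℝ} (hq : 1 < q) : Faithful BIso (IG3 q) := by
  refine (target_A True True False True (IG3 q) ?_).faithful
  intro γ hb y hz
  obtain ⟨l, r, h1, h2, -⟩ := exists_int hb hz hq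
  refine ⟨⟨l, r, h1, h2⟩, kind γ, fun u v hne he => ?_⟩
  rcases kind_eq he with ⟨hu, hv⟩ | ⟨hu, hv⟩ | ⟨hu, hv⟩
  · exact (hz.rr u v hu hv).2 ⟨trivial, hne⟩
  · exact (hz.cc u v hu hv).2 ⟨trivial, hne⟩
  · exact (hz.pp u v hu hv).2 ⟨trivial, hne⟩

theorem faithful_IO3 {q : ℝ} (hq : 1 < q) : Faithful BIso (IO3 q) := by
  refine (target_O (IO3 q) ?_).faithful
  intro γ hb y hz hy
  obtain ⟨l, r, h1, -, h3⟩ := exists_int hb hz hq
  refine ⟨⟨l, r, h1, fun u v => ?_⟩, kind γ, fun u v he => ?_⟩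
  · rw [h3 u v]
    exact hy u v
  · rw [Bool.eq_false_iff]
    intro h
    obtain ⟨h4, h5⟩ := (hy u v).1 h
    apply h5
    have hne : u ≠ v := by
      rintro rfl
      rcases h4 with ⟨h6, h7 | h7⟩ | ⟨h6, h7⟩
      · exact h7.1 h6
      · exact hb.disj u h6 h7
      · exact h6.2 h7
    rcases kind_eq he with ⟨hu, hv⟩ | ⟨hu, hv⟩ | ⟨hu, hv⟩
    · exact (hz.rr u v hu hv).2 ⟨trivial, hne⟩
    · exact (hz.cc u v hu hv).2 ⟨trivial, hne⟩
    · exact (hz.pp u v hu hv).2 ⟨trivial, hne⟩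

end Pool.Agent.Run7.h653.FH
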